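import Pool.Agent.H34.Tri.Gram

/-!
# Comparison of the Gram matrix with a translation invariant form
-/

set_option autoImplicit false

noncomputable section

open MeasureTheory Set Complex Metric
open scoped Real ENNReal NNReal

namespace Pool.Agent.H34.TriCL

open Pool.Agent.H24.Tri (gauss cis)

variable {f : ℂ → ℝ}

/-- `e_l(h) = ∫ F_h (P_l F_h)` -/
def eF (f : ℂ → ℝ) (l : ℝ) (h : ℂ) : ℝ := Kf l (Fh f h) (Fh f h)

/-- `v_l(h) = ∫ F_h (P_l F_{ρh})` -/
def vF (ρ : ℂ) (f : ℂ → ℝ) (l : ℝ) (h : ℂ) : ℝ := Kf l (Fh f h) (Fh f (ρ * h))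

/-- `q(h)`, the energy drop between the scales `l` and `L` -/
def qF (ρ : ℂ) (f : ℂ → ℝ) (l L : ℝ) (h : ℂ) : ℝ :=
  (1 / 2) * ((eF f l h - eF f L h) + (eF f l (ρ * h) - eF f L (ρ * h)))

theorem measurable_vF (hf : GF f) (ρ : ℂ) (l : ℝ) : Measurable (vF ρ f l) := by
  have := measurable_pairing hf l (fun _ => 0) measurable_const ρ
  simp only [add_zero] at this
  exact this

theorem measurable_eF (hf : GF f) (l : ℝ) : Measurable (eF f l) := by
  have := measurable_pairing hf l (fun _ => 0) measurable_const 1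
  simp only [add_zero, one_mul] at this
  exact this

theorem vF_nonneg (hf : GF f) (ρ : ℂ) (l : ℝ) (h : ℂ) : 0 ≤ vF ρ f l h := by
  have := pairing_nonneg hf (l := l) h (ρ * h) 0
  simp only [add_zero] at this
  exact this

theorem vF_le (hf : GF f) (ρ : ℂ) {l : ℝ} (hl : 0 < l) (h : ℂ) : vF ρ f l h ≤ ∫ y, f y := by
  have := pairing_le hf hl h (ρ * h) 0
  simp only [add_zero] at this
  exact this

theorem eF_nonneg (hf : GF f) (l : ℝ) (h : ℂ) : 0 ≤ eF f l h := by
  have := pairing_nonneg hf (l := l) h h 0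
  simp only [add_zero] at this
  exact this

theorem eF_le (hf : GF f) {l : ℝ} (hl : 0 < l) (h : ℂ) : eF f l h ≤ ∫ y, f y := by
  have := pairing_le hf hl h h 0
  simp only [add_zero] at this
  exact this

theorem bm_vF (hf : GF f) (ρ : ℂ) {l : ℝ} (hl : 0 < l) : BM (vF ρ f l) :=
  ⟨measurable_vF hf ρ l, ∫ y, f y, fun z => by
    rw [abs_of_nonneg (vF_nonneg hf ρ l z)]
    exact vF_le hf ρ hl z⟩

theorem bm_eF (hf : GF f) {l : ℝ} (hl : 0 < l) : BM (eF f l) :=
  ⟨measurable_eF hf l, ∫ y, f y, fun z => by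
    rw [abs_of_nonneg (eF_nonneg hf l z)]
    exact eF_le hf hl z⟩

theorem bm_comp_mul {v : ℂ → ℝ} (hv : BM v) (ρ : ℂ) : BM (fun h => v (ρ * h)) := by
  obtain ⟨C, hC⟩ := hv.bdd
  exact ⟨hv.meas.comp (measurable_id.const_mul ρ), C, fun z => hC _⟩

theorem BM.const_mul {v : ℂ → ℝ} (hv : BM v) (c : ℝ) : BM (fun h => c * v h) := by
  obtain ⟨C, hC⟩ := hv.bdd
  refine ⟨hv.meas.const_mul c, |c| * C, fun z => ?_⟩
  rw [abs_mul]
  exact mul_le_mul_of_nonneg_left (hC _) (abs_nonneg _)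

theorem bm_qF (hf : GF f) (ρ : ℂ) {l L : ℝ} (hl : 0 < l) (hL : 0 < L) : BM (qF ρ f l L) :=
  (((bm_eF hf hl).sub (bm_eF hf hL)).add
    ((bm_comp_mul (bm_eF hf hl) ρ).sub (bm_comp_mul (bm_eF hf hL) ρ))).const_mul (1 / 2)

theorem eF_anti (hf : GF f) {l L : ℝ} (hl : 0 < l) (hL : l ≤ L) (h : ℂ) :
    eF f L h ≤ eF f l h := Kf_anti hl hL (bi_Fh hf h)

theorem qF_nonneg (hf : GF f) (ρ : ℂ) {l L : ℝ} (hl : 0 < l) (hL : l ≤ L) (h : ℂ) :
    0 ≤ qF ρ f l L h := by
  have h1 := eF_anti hf hl hL h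
  have h2 := eF_anti hf hl hL (ρ * h)
  unfold qF
  linarith

theorem abs_vF_sub_le (hf : GF f) (ρ : ℂ) {l L : ℝ} (hl : 0 < l) (hL : l ≤ L) (h : ℂ) :
    |vF ρ f l h - vF ρ f L h| ≤ qF ρ f l L h :=
  abs_Kf_sub_le hl hL (bi_Fh hf h) (bi_Fh hf (ρ * h))

/-- the form with a translation -/
theorem abs_pairing_sub_le (hf : GF f) (ρ : ℂ) {l L : ℝ} (hl : 0 < l) (hL : l ≤ L) (h c : ℂ) :
    |(∫ y, Fh f h y * P l (Fh f (ρ * h)) (y + c)) - vF ρ f L h| ≤
      qF ρ f l L h + (∫ y, f y) * (20 * ‖c‖ / L) := by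
  have hL0 : 0 < L := hl.trans_le hL
  set F := Fh f h with hF
  set H := Fh f (ρ * h) with hH
  have hFb : BI F := bi_Fh hf h
  have hHb : BI H := bi_Fh hf (ρ * h)
  have hHc : BI (fun z => H (z + c)) := hHb.comp_add c
  have e1 : ∀ m, ∫ y, F y * P m H (y + c) = Kf m F (fun z => H (z + c)) := by
    intro m
    unfold Kf
    simp_rw [P_comp_add]
  have h1 := abs_Kf_sub_le hl hL hFb hHc
  rw [Kf_shift, Kf_shift] at h1
  have h2 : |(∫ y, F y * P L H (y + c)) - ∫ y, F y * P L H y| ≤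
      (∫ y, f y) * (20 * ‖c‖ / L) := by
    rw [← integral_sub (int_pairing hf hL0 h (ρ * h) c) (int_FPH hL0 hFb hHb)]
    refine abs_integral_le_integral_abs.trans ?_
    rw [← integral_mul_const]
    refine integral_mono (((int_pairing hf hL0 h (ρ * h) c).sub (int_FPH hL0 hFb hHb)).abs)
      (hf.bi.int.mul_const _) fun y => ?_
    simp only
    rw [← mul_sub, abs_mul, abs_of_nonneg (Fh_nonneg hf h y)]
    have h3 := abs_P_add_sub_le hL0 hHb.bm (abs_Fh_le_one hf (ρ * h)) y c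
    rw [one_mul] at h3
    exact mul_le_mul (Fh_le hf h y) h3 (abs_nonneg _) (hf.nonneg y)
  rw [e1] at h2 ⊢
  have h4 : Kf l F (fun z => H (z + c)) - vF ρ f L h =
      (Kf l F (fun z => H (z + c)) - Kf L F (fun z => H (z + c))) +
      (Kf L F (fun z => H (z + c)) - ∫ y, F y * P L H y) := by
    change _ - Kf L F H = _
    unfold Kf
    ring
  rw [h4]
  refine (abs_add_le _ _).trans (add_le_add h1 h2)

/-- the Gram matrix is almost translation invariant -/
theorem gram_approx (hf : GF f) {ρ : ℂ} (hρ : ρ ≠ 1) {s L : ℝ} (hs : 0 < s)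
    (hL : ‖ρ - 1‖ * (s / Real.sqrt 2) ≤ L) (a b : ℂ) :
    |(∫ z, T ρ f s a z * T ρ f s b z) - P (Real.sqrt 2 * s) (vF ρ f L) (b - a)| ≤
      P (Real.sqrt 2 * s) (qF ρ f (‖ρ - 1‖ * (s / Real.sqrt 2)) L) (b - a) +
        (∫ y, f y) * (20 * ‖ρ - 1‖ * (‖a‖ + s) / L) := by
  have hρ' : ρ - 1 ≠ 0 := sub_ne_zero.2 hρ
  have hn : 0 < ‖ρ - 1‖ := norm_pos_iff.2 hρ'
  have hl : 0 < ‖ρ - 1‖ * (s / Real.sqrt 2) := by positivity
  have h2s : 0 < Real.sqrt 2 * s := by positivity
  have hL0 : 0 < L := hl.trans_le hL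
  set M := ∫ y, f y with hM
  have hM0 : 0 ≤ M := integral_nonneg hf.nonneg
  set l := ‖ρ - 1‖ * (s / Real.sqrt 2) with hld
  rw [gram hf hρ hs a b]
  -- rewrite both sides around `b - a`
  have e1 : ∀ u : ℂ → ℝ, P (Real.sqrt 2 * s) u (b - a) =
      ∫ h, gauss (Real.sqrt 2 * s) (b - a - h) * u h := by
    intro u
    unfold P
    have h1 := integral_sub_left_eq_self (fun h => gauss (Real.sqrt 2 * s) (b - a - h) * u h)
      (volume : Measure ℂ) (b - a)
    rw [← h1, ← integral_neg_eq_self]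
    congr 1
    ext h
    rw [gauss_neg, show b - a - (b - a - h) = h by ring, show b - a + -h = b - a - h by ring]
  rw [e1, e1]
  set g : ℂ → ℝ := fun h => gauss (Real.sqrt 2 * s) (b - a - h) with hg
  have hgi : Integrable g := (integrable_gauss h2s).comp_sub_left (b - a)
  have hg0 : ∀ h, 0 ≤ g h := fun h => gauss_nonneg _ _
  have hKm : Measurable (KG ρ f s a b) :=
    measurable_pairing hf l (fun h => (ρ - 1) * ((a + b - h) / 2))
      ((((measurable_const.sub measurable_id)).div_const 2).const_mul (ρ - 1)) ρ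
  have hK0 : ∀ h, 0 ≤ KG ρ f s a b h := fun h => pairing_nonneg hf _ _ _
  have hK1 : ∀ h, |KG ρ f s a b h| ≤ M := fun h => by
    rw [abs_of_nonneg (hK0 h)]
    exact pairing_le hf hl _ _ _
  have hiK : Integrable (fun h => g h * KG ρ f s a b h) :=
    int_mul_bdd hgi hKm.aestronglyMeasurable hK1
  have hv := bm_vF hf ρ hL0
  have hq := bm_qF hf ρ hl hL0
  obtain ⟨Cv, hCv⟩ := hv.bdd
  obtain ⟨Cq, hCq⟩ := hq.bdd
  have hiv : Integrable (fun h => g h * vF ρ f L h) :=
    int_mul_bdd hgi hv.meas.aestronglyMeasurable hCv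
  have hiq : Integrable (fun h => g h * qF ρ f l L h) :=
    int_mul_bdd hgi hq.meas.aestronglyMeasurable hCq
  -- first moment
  have hmom : Integrable (fun h => g h * ‖a + b - h‖) ∧ ∫ h, g h * ‖a + b - h‖ ≤
      2 * ‖a‖ + 2 * s := by
    have hb1 : Integrable (fun h => g h * (2 * ‖a‖ + ‖b - a - h‖)) := by
      have h1 : Integrable (fun h => ‖b - a - h‖ * gauss (Real.sqrt 2 * s) (b - a - h)) :=
        (int_norm_gauss h2s).comp_sub_left (b - a)
      refine ((hgi.mul_const (2 * ‖a‖)).add h1).congr (Filter.Eventually.of_forall fun h => ?_)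
      simp only [Pi.add_apply, hg]
      ring
    have hle : ∀ h, g h * ‖a + b - h‖ ≤ g h * (2 * ‖a‖ + ‖b - a - h‖) := by
      intro h
      refine mul_le_mul_of_nonneg_left ?_ (hg0 h)
      have : a + b - h = 2 * a + (b - a - h) := by ring
      rw [this]
      refine (norm_add_le _ _).trans ?_
      rw [norm_mul]
      simp
    have hi : Integrable (fun h => g h * ‖a + b - h‖) := by
      refine hb1.mono' ?_ (Filter.Eventually.of_forall fun h => ?_)
      · exact (((measurable_gauss _).comp (measurable_const.sub measurable_id)).mul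
          (measurable_const.sub measurable_id).norm).aestronglyMeasurable
      · rw [Real.norm_of_nonneg (mul_nonneg (hg0 h) (norm_nonneg _))]
        exact hle h
    refine ⟨hi, (integral_mono hi hb1 hle).trans ?_⟩
    have h2 : ∫ h, g h * (2 * ‖a‖ + ‖b - a - h‖) = 2 * ‖a‖ +
        ∫ h, ‖h‖ * gauss (Real.sqrt 2 * s) h := by
      have h3 : (fun h => g h * (2 * ‖a‖ + ‖b - a - h‖)) = fun h =>
          (2 * ‖a‖) * g h + ‖b - a - h‖ * gauss (Real.sqrt 2 * s) (b - a - h) := by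
        ext h
        simp only [hg]
        ring
      have h1 : Integrable (fun h => ‖b - a - h‖ * gauss (Real.sqrt 2 * s) (b - a - h)) :=
        (int_norm_gauss h2s).comp_sub_left (b - a)
      rw [h3, integral_add (hgi.const_mul _) h1, integral_const_mul]
      have h4 : ∫ h, g h = 1 := by
        rw [← integral_gauss h2s]
        exact integral_sub_left_eq_self (gauss (Real.sqrt 2 * s)) volume (b - a)
      have h5 := integral_sub_left_eq_self (fun h : ℂ => ‖h‖ * gauss (Real.sqrt 2 * s) h)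
        volume (b - a)
      rw [h4, h5, mul_one]
    rw [h2]
    have h6 := integral_norm_gauss_le h2s
    have h7 : Real.sqrt 2 ≤ 2 := by
      rw [show (2 : ℝ) = Real.sqrt 4 by
        rw [show (4 : ℝ) = 2 ^ 2 by norm_num, Real.sqrt_sq (by norm_num)]]
      exact Real.sqrt_le_sqrt (by norm_num)
    nlinarith
  have hpt : ∀ h, |g h * KG ρ f s a b h - g h * vF ρ f L h| ≤
      g h * qF ρ f l L h + (M * (10 * ‖ρ - 1‖ / L)) * (g h * ‖a + b - h‖) := by
    intro h
    rw [← mul_sub, abs_mul, abs_of_nonneg (hg0 h)]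
    have h1 := abs_pairing_sub_le hf ρ hl hL h ((ρ - 1) * ((a + b - h) / 2))
    have h2 : ‖(ρ - 1) * ((a + b - h) / 2)‖ = ‖ρ - 1‖ * (‖a + b - h‖ / 2) := by
      rw [norm_mul, norm_div]
      simp
    rw [h2] at h1
    have h3 := mul_le_mul_of_nonneg_left h1 (hg0 h)
    refine h3.trans (le_of_eq ?_)
    field_simp
    ring
  rw [← integral_sub hiK hiv]
  refine abs_integral_le_integral_abs.trans ?_
  refine (integral_mono (hiK.sub hiv).abs (hiq.add (hmom.1.const_mul _)) hpt).trans ?_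
  have e3 : ∫ h, ((fun h => g h * qF ρ f l L h) + fun h =>
      (M * (10 * ‖ρ - 1‖ / L)) * (g h * ‖a + b - h‖)) h =
      (∫ h, g h * qF ρ f l L h) + (M * (10 * ‖ρ - 1‖ / L)) * ∫ h, g h * ‖a + b - h‖ := by
    rw [← integral_const_mul]
    exact integral_add hiq (hmom.1.const_mul _)
  rw [e3]
  refine add_le_add le_rfl ?_
  have h8 := mul_le_mul_of_nonneg_left hmom.2
    (by positivity : 0 ≤ M * (10 * ‖ρ - 1‖ / L))
  refine h8.trans (le_of_eq ?_)
  field_simp
  ring

end Pool.Agent.H34.TriCL
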