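import Pool.Agent.H34.Tri.Level

/-!
# The comparison lemma for lacunary scales
-/

set_option autoImplicit false

noncomputable section

open MeasureTheory Set Complex Metric
open scoped Real ENNReal NNReal

namespace Pool.Agent.H34.TriCL

open Pool.Agent.H24.Tri (gauss cis)

variable {f : ℂ → ℝ}

theorem tele {u w : ℕ → ℝ} {M : ℝ} (hw : ∀ k, 0 ≤ w k) (hu : ∀ k, u k ≤ M) (hM : 0 ≤ M)
    (h : ∀ k, u (k + 2) ≤ w k) (J : ℕ) : ∑ k ∈ Finset.range J, (u k - w k) ≤ 2 * M := by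
  rw [Finset.sum_sub_distrib]
  have key : ∀ n, ∑ k ∈ Finset.range (n + 2), u k ≤ 2 * M + ∑ k ∈ Finset.range n, w k := by
    intro n
    rw [Finset.sum_range_succ', Finset.sum_range_succ']
    have h1 : ∑ k ∈ Finset.range n, u (k + 1 + 1) ≤ ∑ k ∈ Finset.range n, w k :=
      Finset.sum_le_sum fun k _ => h k
    have h2 := hu 0
    have h3 := hu (0 + 1)
    linarith
  match J with
  | 0 => simp; linarith
  | 1 =>
    have h1 := hu 0
    have h2 := hw 0
    simp
    linarith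
  | n + 2 =>
    have h1 := key n
    have h2 : ∑ k ∈ Finset.range n, w k ≤ ∑ k ∈ Finset.range (n + 2), w k := by
      rw [Finset.sum_range_succ, Finset.sum_range_succ]
      have := hw n
      have := hw (n + 1)
      linarith
    linarith

theorem sum_E_le (hf : GF f) {ρ : ℂ} (hρ : ρ ≠ 0) (α l L : ℕ → ℝ) (hα : ∀ k, 0 < α k)
    (hα2 : ∀ k, α k ≤ α (k + 2)) (hl : ∀ k, 0 < l k) (hlL : ∀ k, l k ≤ L k)
    (hLl : ∀ k, L k ≤ l (k + 2)) (J : ℕ) :
    ∑ k ∈ Finset.range J, E ρ f (α k) (l k) (L k) ≤ 2 * ∫ y, f y := by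
  have hM0 : 0 ≤ ∫ y, f y := integral_nonneg hf.nonneg
  have hn : 0 < ‖ρ‖ := norm_pos_iff.2 hρ
  have hL0 : ∀ k, 0 < L k := fun k => (hl k).trans_le (hlL k)
  have h1 := tele (u := fun k => U f (α k) (l k)) (w := fun k => U f (α k) (L k))
    (M := ∫ y, f y) (fun k => U_nonneg hf _ _) (fun k => U_le hf (hα k) (hl k)) hM0
    (fun k => U_anti hf (hα k) (hα2 k) (hL0 k) (hLl k)) J
  have h2 := tele (u := fun k => U f (‖ρ‖ * α k) (l k)) (w := fun k => U f (‖ρ‖ * α k) (L k))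
    (M := ∫ y, f y) (fun k => U_nonneg hf _ _)
    (fun k => U_le hf (mul_pos hn (hα k)) (hl k)) hM0
    (fun k => U_anti hf (mul_pos hn (hα k)) (mul_le_mul_of_nonneg_left (hα2 k) hn.le)
      (hL0 k) (hLl k)) J
  have h3 : ∑ k ∈ Finset.range J, E ρ f (α k) (l k) (L k) =
      (1 / 2) * (∑ k ∈ Finset.range J, (U f (α k) (l k) - U f (α k) (L k)) +
        ∑ k ∈ Finset.range J, (U f (‖ρ‖ * α k) (l k) - U f (‖ρ‖ * α k) (L k))) := by
    rw [← Finset.sum_add_distrib, Finset.mul_sum]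
    exact Finset.sum_congr rfl fun k _ => E_eq hf hρ (hα k) (hl k) (hL0 k)
  rw [h3]
  linarith

/-- the main estimate, for infinite lacunary sequences -/
theorem cl_core {ρ : ℂ} (h0 : ρ ≠ 0) (h1 : ρ ≠ 1) {δ η : ℝ} (hδ : 0 < δ) (hδ2 : δ ≤ 1 / 2)
    (hη : 0 < η) : ∃ (A : ℝ) (J : ℕ), 1 ≤ A ∧ 0 < J ∧ ∀ d : ℕ → ℝ, (∀ k, 0 < d k) →
      (∀ k, A * d k ≤ d (k + 1)) → ∀ f : ℂ → ℝ, GF f → ∃ k, k < J ∧ ∀ a : ℂ, ‖a‖ ≤ d k →
        ∫ z, (T ρ f (δ * d k) a z - T ρ f (δ * d k) 0 z) ^ 2 ≤ (∫ y, f y) * η := by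
  have hκ : 0 < ‖ρ - 1‖ := norm_pos_iff.2 (sub_ne_zero.2 h1)
  set κ := ‖ρ - 1‖ with hκd
  set r2 := Real.sqrt 2 with hr2
  have hr20 : 0 < r2 := Real.sqrt_pos.2 (by norm_num)
  have hr2sq : r2 * r2 = 2 := Real.mul_self_sqrt (by norm_num)
  have hr21 : 1 < r2 := by
    rw [hr2]
    exact Real.lt_sqrt_of_sq_lt (by norm_num)
  have hr22 : r2 < 2 := by nlinarith
  -- parameters
  set A1 : ℝ := 1 + 320 / η with hA1
  have hA11 : 1 ≤ A1 := by
    have : 0 < 320 / η := by positivity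
    linarith
  have hA10 : 0 < A1 := by linarith
  have hA1e : 80 / A1 ≤ η / 4 := by
    rw [div_le_iff₀ hA10, hA1]
    have : η / 4 * (1 + 320 / η) = η / 4 + 80 := by
      field_simp
      ring
    linarith
  set γ : ℝ := Real.sqrt (A1 ^ 2 + (r2 * δ) ^ 2) with hγ
  have hγ1 : A1 ≤ γ := Real.le_sqrt_of_sq_le (by nlinarith [sq_nonneg (r2 * δ)])
  have hγ0 : 0 < γ := by linarith
  set A2 : ℝ := κ * γ + κ + (640 * κ + 320 * κ * (A1 + 1)) * (4 / η) with hA2
  have hA20 : 0 < A2 := by positivity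
  have hA2e : (640 * κ + 320 * κ * (A1 + 1)) / A2 ≤ η / 4 := by
    rw [div_le_iff₀ hA20]
    have h2 : η / 4 * A2 = η / 4 * (κ * γ + κ) + (640 * κ + 320 * κ * (A1 + 1)) := by
      rw [hA2]
      field_simp
    have h3 : 0 < η / 4 * (κ * γ + κ) := by positivity
    linarith
  have hA2κ : κ ≤ A2 := by
    have h2 : 0 < κ * γ := by positivity
    have h3 : 0 < (640 * κ + 320 * κ * (A1 + 1)) * (4 / η) := by positivity
    rw [hA2]
    linarith
  have hA2γ : κ * γ ≤ A2 := by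
    have h3 : 0 < (640 * κ + 320 * κ * (A1 + 1)) * (4 / η) := by positivity
    rw [hA2]
    linarith
  set A : ℝ := 1 + γ / δ + 2 * A2 / (κ * δ) with hA
  have hAγ : γ ≤ A * δ := by
    have h2 : A * δ = δ + γ + 2 * A2 / κ := by
      rw [hA]
      field_simp
    have h3 : 0 < 2 * A2 / κ := by positivity
    rw [h2]
    linarith
  have hAA2 : 2 * A2 ≤ A * (κ * δ) := by
    have h2 : A * (κ * δ) = κ * δ + γ * κ + 2 * A2 := by
      rw [hA]
      field_simp
    have h3 : 0 < κ * δ := by positivity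
    have h4 : 0 < γ * κ := by positivity
    rw [h2]
    linarith
  have hA_1 : 1 ≤ A := by
    have h2 : 0 < γ / δ := by positivity
    have h3 : 0 < 2 * A2 / (κ * δ) := by positivity
    rw [hA]
    linarith
  set Cst : ℝ := 72 + 32 * Real.exp π with hCst
  have hCst0 : 0 < Cst := by positivity
  obtain ⟨J0, hJ0⟩ := exists_nat_gt (2 * Cst / η)
  set J : ℕ := J0 + 1 with hJ
  have hJpos : (0 : ℝ) < J := by
    rw [hJ]
    positivity
  have hJC : Cst ≤ J * (η / 2) := by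
    have h2 : 2 * Cst / η < J := by
      rw [hJ]
      push_cast
      linarith
    rw [div_lt_iff₀ hη] at h2
    linarith
  refine ⟨A, J, hA_1, by omega, fun d hd hdA f hf => ?_⟩
  by_contra hcon
  push Not at hcon
  have hM0 : 0 ≤ ∫ y, f y := integral_nonneg hf.nonneg
  set M := ∫ y, f y with hM
  -- the sequences
  have hdm : ∀ k, d k ≤ d (k + 1) := fun k =>
    (le_mul_of_one_le_left (hd k).le hA_1).trans (hdA k)
  have hdm2 : ∀ k, d k ≤ d (k + 2) := fun k => (hdm k).trans (hdm (k + 1))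
  have hdA2 : ∀ k, A * d k ≤ d (k + 2) := fun k => (hdA k).trans (hdm (k + 1))
  obtain ⟨s, hs⟩ : ∃ s : ℕ → ℝ, ∀ k, s k = δ * d k := ⟨_, fun _ => rfl⟩
  obtain ⟨c, hc⟩ : ∃ c : ℕ → ℝ, ∀ k, c k = r2 * s k := ⟨_, fun _ => rfl⟩
  obtain ⟨c', hc'⟩ : ∃ c' : ℕ → ℝ, ∀ k, c' k = γ * d k := ⟨_, fun _ => rfl⟩
  obtain ⟨l, hl⟩ : ∃ l : ℕ → ℝ, ∀ k, l k = κ * (s k / r2) := ⟨_, fun _ => rfl⟩
  obtain ⟨L, hL⟩ : ∃ L : ℕ → ℝ, ∀ k, L k = A2 * d k := ⟨_, fun _ => rfl⟩
  obtain ⟨l', hl'⟩ : ∃ l' : ℕ → ℝ, ∀ k, l' k = κ * (c' k / r2 / r2) := ⟨_, fun _ => rfl⟩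
  have hs0 : ∀ k, 0 < s k := fun k => by rw [hs]; exact mul_pos hδ (hd k)
  have hc0 : ∀ k, 0 < c k := fun k => by rw [hc]; exact mul_pos hr20 (hs0 k)
  have hc'0 : ∀ k, 0 < c' k := fun k => by rw [hc']; exact mul_pos hγ0 (hd k)
  have hl0 : ∀ k, 0 < l k := fun k => by
    rw [hl]
    have := hs0 k
    positivity
  have hL0 : ∀ k, 0 < L k := fun k => by rw [hL]; exact mul_pos hA20 (hd k)
  have hl'0 : ∀ k, 0 < l' k := fun k => by
    rw [hl']
    have := hc'0 k
    positivity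
  have hl'e : ∀ k, l' k = κ * γ / 2 * d k := fun k => by
    rw [hl', hc', div_div, hr2sq]
    ring
  have hsqrt : ∀ k, Real.sqrt ((A1 * d k) ^ 2 + (r2 * s k) ^ 2) = c' k := by
    intro k
    rw [hc', hγ, hs]
    have h2 : (A1 * d k) ^ 2 + (r2 * (δ * d k)) ^ 2 = (A1 ^ 2 + (r2 * δ) ^ 2) * d k ^ 2 := by ring
    rw [h2, Real.sqrt_mul (by positivity), Real.sqrt_sq (hd k).le]
  -- elementary inequalities between the scales
  have hlL : ∀ k, l k ≤ L k := by
    intro k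
    rw [hl, hL, hs]
    have h2 : κ * (δ * d k / r2) = (κ * (δ / r2)) * d k := by ring
    rw [h2]
    refine mul_le_mul_of_nonneg_right ?_ (hd k).le
    have h3 : δ / r2 ≤ 1 := by
      rw [div_le_one hr20]
      linarith
    calc κ * (δ / r2) ≤ κ * 1 := mul_le_mul_of_nonneg_left h3 hκ.le
      _ ≤ A2 := by linarith
  have hLl2 : ∀ k, L k ≤ l (k + 2) := by
    intro k
    rw [hl, hL, hs]
    have h2 : κ * (δ * d (k + 2) / r2) = (κ * δ) * (d (k + 2) / r2) := by ring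
    rw [h2]
    have h3 : A2 * d k ≤ (κ * δ) * (d (k + 2) / 2) := by
      have h4 := hdA2 k
      have h5 := mul_le_mul_of_nonneg_right hAA2 (hd k).le
      have h6 : (κ * δ) * (A * d k) ≤ (κ * δ) * d (k + 2) :=
        mul_le_mul_of_nonneg_left h4 (by positivity)
      linarith
    refine h3.trans (mul_le_mul_of_nonneg_left ?_ (by positivity))
    exact div_le_div_of_nonneg_left (hd _).le hr20 hr22.le
  have hcm : ∀ k, c k ≤ c (k + 2) := by
    intro k
    rw [hc, hc, hs, hs]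
    have := hdm2 k
    gcongr
  have hc'm : ∀ k, c' k ≤ c' (k + 2) := by
    intro k
    rw [hc', hc']
    have := hdm2 k
    gcongr
  have hLm : ∀ k, L k ≤ L (k + 1) := by
    intro k
    rw [hL, hL]
    have := hdm k
    gcongr
  have hl'L : ∀ k, l' k ≤ L (k + 1) := by
    intro k
    rw [hl'e, hL]
    have h2 : κ * γ / 2 ≤ A2 := by
      have : 0 < κ * γ := by positivity
      linarith
    calc κ * γ / 2 * d k ≤ A2 * d k := mul_le_mul_of_nonneg_right h2 (hd k).le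
      _ ≤ A2 * d (k + 1) := mul_le_mul_of_nonneg_left (hdm k) hA20.le
  have hLl' : ∀ k, L (k + 1) ≤ l' (k + 2) := by
    intro k
    rw [hl'e, hL]
    have h2 := hdA (k + 1)
    have h3 : κ * γ / 2 * (A * d (k + 1)) ≤ κ * γ / 2 * d (k + 1 + 1) :=
      mul_le_mul_of_nonneg_left h2 (by positivity)
    have h4 : A2 * d (k + 1) ≤ κ * γ / 2 * (A * d (k + 1)) := by
      have h5 : A2 ≤ κ * γ / 2 * A := by
        have h6 : A * (κ * δ) ≤ A * (κ * γ) := by
          have : δ ≤ γ := by linarith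
          gcongr
        linarith
      calc A2 * d (k + 1) ≤ (κ * γ / 2 * A) * d (k + 1) :=
            mul_le_mul_of_nonneg_right h5 (hd _).le
        _ = _ := by ring
    exact h4.trans h3
  have hcc' : ∀ k, c' k < c (k + 1) := by
    intro k
    rw [hc', hc, hs]
    have h2 := hdA k
    have h3 : γ * d k ≤ A * δ * d k := mul_le_mul_of_nonneg_right hAγ (hd k).le
    have h4 : δ * (A * d k) ≤ δ * d (k + 1) := mul_le_mul_of_nonneg_left h2 hδ.le
    have h5 : 0 < δ * d (k + 1) := mul_pos hδ (hd _)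
    have h6 : δ * d (k + 1) < r2 * (δ * d (k + 1)) := lt_mul_of_one_lt_left h5 hr21
    linarith
  -- transition between consecutive levels
  obtain ⟨X, hX⟩ : ∃ X : ℕ → ℝ, ∀ k, X k = E ρ f (c' k) (L k) (L (k + 1)) +
    (E ρ f (c' k) (l' k) (L (k + 1)) + E ρ f (c (k + 1)) (l' k) (L (k + 1))) +
    M * (80 * κ / A2) := ⟨_, fun _ => rfl⟩
  have htrans : ∀ k, V ρ f (L (k + 1)) (c (k + 1)) ≤ V ρ f (L k) (c' k) + X k := by
    intro k
    set t := Real.sqrt (c (k + 1) ^ 2 - c' k ^ 2) with ht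
    have ht2 : 0 < c (k + 1) ^ 2 - c' k ^ 2 :=
      sub_pos.2 (pow_lt_pow_left₀ (hcc' k) (hc'0 k).le two_ne_zero)
    have ht0 : 0 < t := Real.sqrt_pos.2 ht2
    have htsq : t ^ 2 = c (k + 1) ^ 2 - c' k ^ 2 := Real.sq_sqrt ht2.le
    have hsig : 0 < c' k / r2 := by
      have := hc'0 k
      positivity
    have e1 : r2 * (c' k / r2) = c' k := by field_simp
    have h2 := V_mono_approx hf h1 (s := c' k / r2) (L := L (k + 1)) (t := t) hsig
      (by
        rw [← hκd, ← hr2, ← hl']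
        exact hl'L k) ht0
    rw [← hκd, ← hr2, e1, htsq, show c (k + 1) ^ 2 - c' k ^ 2 + c' k ^ 2 = c (k + 1) ^ 2 by ring,
      Real.sqrt_sq (hc0 _).le, ← hl'] at h2
    have h3 := abs_le.1 (abs_V_sub_le hf ρ (hc'0 k) (hL0 k) (hLm k))
    have h4 : t + c' k / r2 ≤ 2 * d (k + 1) := by
      have h5 : t ≤ c (k + 1) := by
        rw [ht]
        exact Real.sqrt_le_iff.2 ⟨(hc0 _).le, sub_le_self _ (sq_nonneg _)⟩
      have h6 : c' k / r2 ≤ c' k := div_le_self (hc'0 k).le hr21.le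
      have h7 : c (k + 1) ≤ d (k + 1) := by
        rw [hc, hs]
        have h8 := hd (k + 1)
        have h9 : r2 * δ ≤ 1 := by
          have := mul_le_mul hr22.le hδ2 hδ.le (by norm_num : (0 : ℝ) ≤ 2)
          linarith
        calc r2 * (δ * d (k + 1)) = (r2 * δ) * d (k + 1) := by ring
          _ ≤ 1 * d (k + 1) := mul_le_mul_of_nonneg_right h9 h8.le
          _ = _ := one_mul _
      have h8 := hcc' k
      linarith
    have h5 : (∫ y, f y) * (40 * κ * (t + c' k / r2) / L (k + 1)) ≤ M * (80 * κ / A2) := by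
      refine mul_le_mul_of_nonneg_left ?_ hM0
      rw [div_le_div_iff₀ (hL0 _) hA20, hL]
      calc 40 * κ * (t + c' k / r2) * A2 ≤ 40 * κ * (2 * d (k + 1)) * A2 := by gcongr
        _ = 80 * κ * (A2 * d (k + 1)) := by ring
    rw [hX]
    linarith [h3.1]
  -- single scales
  choose! a ha using hcon
  obtain ⟨D, hD⟩ : ∃ D : ℕ → ℝ, ∀ k, D k =
    ∫ z, (T ρ f (δ * d k) (a k) z - T ρ f (δ * d k) 0 z) ^ 2 := ⟨_, fun _ => rfl⟩
  have hDlow : ∀ k, k < J → M * η < D k := fun k hk => by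
    rw [hD]
    exact (ha k hk).2
  have hDup : ∀ k, k < J → D k ≤ 8 * (V ρ f (L k) (c k) - V ρ f (L k) (c' k)) +
      8 * E ρ f (c k) (l k) (L k) + 16 * Real.exp π * E ρ f (r2 * c' k) (l k) (L k) +
      M * (80 / A1 + 320 * κ * (A1 + 1) / A2) := by
    intro k hk
    have h2 := one_scale hf h1 (s := s k) (L := L k) (t := A1 * d k) (hs0 k)
      (by
        rw [← hκd, ← hr2, ← hl]
        exact hlL k) (mul_pos hA10 (hd k)) (a := a k)
      ((ha k hk).1.trans (le_mul_of_one_le_left (hd k).le hA11))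
    rw [← hκd, ← hr2, hsqrt k, ← hl, ← hc] at h2
    rw [hs] at h2
    rw [← hD] at h2
    have h3 : (∫ y, f y) * (80 * ‖a k‖ / (A1 * d k) + 320 * κ * (A1 * d k + δ * d k) / L k) ≤
        M * (80 / A1 + 320 * κ * (A1 + 1) / A2) := by
      refine mul_le_mul_of_nonneg_left (add_le_add ?_ ?_) hM0
      · rw [div_le_div_iff₀ (mul_pos hA10 (hd k)) hA10]
        have h4 := (ha k hk).1
        calc 80 * ‖a k‖ * A1 ≤ 80 * d k * A1 := by gcongr
          _ = 80 * (A1 * d k) := by ring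
      · rw [div_le_div_iff₀ (hL0 k) hA20, hL]
        have h5 : A1 * d k + δ * d k ≤ (A1 + 1) * d k := by
          rw [← add_mul]
          exact mul_le_mul_of_nonneg_right (by linarith) (hd k).le
        calc 320 * κ * (A1 * d k + δ * d k) * A2 ≤ 320 * κ * ((A1 + 1) * d k) * A2 := by gcongr
          _ = 320 * κ * (A1 + 1) * (A2 * d k) := by ring
    linarith
  -- summation
  have hsumV : ∀ n, ∑ k ∈ Finset.range (n + 1), (V ρ f (L k) (c k) - V ρ f (L k) (c' k)) ≤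
      M + ∑ k ∈ Finset.range n, X k - V ρ f (L n) (c' n) := by
    intro n
    induction n with
    | zero =>
      have h2 := V_le hf ρ (hL0 0) (hc0 0)
      simp
      linarith
    | succ n ih =>
      rw [Finset.sum_range_succ, Finset.sum_range_succ (fun k => X k)]
      have h2 := htrans n
      linarith
  have hX0 : ∀ k, 0 ≤ X k := by
    intro k
    rw [hX]
    have h2 := E_nonneg hf ρ (c' k) (hL0 k) (hLm k)
    have h3 := E_nonneg hf ρ (c' k) (hl'0 k) (hl'L k)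
    have h4 := E_nonneg hf ρ (c (k + 1)) (hl'0 k) (hl'L k)
    have h5 : 0 ≤ M * (80 * κ / A2) := by positivity
    linarith
  have hsumX : ∑ k ∈ Finset.range J0, X k ≤ 6 * M + J * (M * (80 * κ / A2)) := by
    have g1 := sum_E_le hf h0 c' L (fun k => L (k + 1)) hc'0 hc'm hL0 hLm
      (fun k => hLm (k + 1)) J0
    have g2 := sum_E_le hf h0 c' l' (fun k => L (k + 1)) hc'0 hc'm hl'0 hl'L hLl' J0
    have g3 := sum_E_le hf h0 (fun k => c (k + 1)) l' (fun k => L (k + 1)) (fun k => hc0 (k + 1))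
      (fun k => hcm (k + 1)) hl'0 hl'L hLl' J0
    have g4 : ∑ k ∈ Finset.range J0, X k = (∑ k ∈ Finset.range J0,
        E ρ f (c' k) (L k) (L (k + 1))) + ((∑ k ∈ Finset.range J0,
        E ρ f (c' k) (l' k) (L (k + 1))) + ∑ k ∈ Finset.range J0,
        E ρ f (c (k + 1)) (l' k) (L (k + 1))) + J0 * (M * (80 * κ / A2)) := by
      rw [← Finset.sum_add_distrib, ← Finset.sum_add_distrib]
      have : (J0 : ℝ) * (M * (80 * κ / A2)) = ∑ k ∈ Finset.range J0, M * (80 * κ / A2) := by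
        rw [Finset.sum_const, Finset.card_range, nsmul_eq_mul]
      rw [this, ← Finset.sum_add_distrib]
      exact Finset.sum_congr rfl fun k _ => hX k
    have g5 : (J0 : ℝ) * (M * (80 * κ / A2)) ≤ J * (M * (80 * κ / A2)) := by
      refine mul_le_mul_of_nonneg_right ?_ (by positivity)
      rw [hJ]
      push_cast
      linarith
    rw [g4]
    linarith
  have hsumD : ∑ k ∈ Finset.range J, D k ≤ 8 * (M + ∑ k ∈ Finset.range J0, X k) +
      8 * (2 * M) + 16 * Real.exp π * (2 * M) +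
      J * (M * (80 / A1 + 320 * κ * (A1 + 1) / A2)) := by
    have g1 := sum_E_le hf h0 c l L hc0 hcm hl0 hlL hLl2 J
    have g2 := sum_E_le hf h0 (fun k => r2 * c' k) l L (fun k => mul_pos hr20 (hc'0 k))
      (fun k => mul_le_mul_of_nonneg_left (hc'm k) hr20.le) hl0 hlL hLl2 J
    have g3 := hsumV J0
    have g4 := V_nonneg hf ρ (L J0) (c' J0)
    have g5 : ∑ k ∈ Finset.range J, D k ≤ ∑ k ∈ Finset.range J,
        (8 * (V ρ f (L k) (c k) - V ρ f (L k) (c' k)) +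
        8 * E ρ f (c k) (l k) (L k) + 16 * Real.exp π * E ρ f (r2 * c' k) (l k) (L k) +
        M * (80 / A1 + 320 * κ * (A1 + 1) / A2)) :=
      Finset.sum_le_sum fun k hk => hDup k (Finset.mem_range.1 hk)
    rw [Finset.sum_add_distrib, Finset.sum_add_distrib, Finset.sum_add_distrib,
      ← Finset.mul_sum, ← Finset.mul_sum, ← Finset.mul_sum, Finset.sum_const,
      Finset.card_range, nsmul_eq_mul] at g5
    have g6 := mul_le_mul_of_nonneg_left g2 (by positivity : 0 ≤ 16 * Real.exp π)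
    linarith
  have hlow : (J : ℝ) * (M * η) < ∑ k ∈ Finset.range J, D k := by
    have g1 : ∑ k ∈ Finset.range J, M * η < ∑ k ∈ Finset.range J, D k :=
      Finset.sum_lt_sum_of_nonempty ⟨0, Finset.mem_range.2 (by omega)⟩ fun k hk =>
        hDlow k (Finset.mem_range.1 hk)
    rwa [Finset.sum_const, Finset.card_range, nsmul_eq_mul] at g1
  have hfinal : 8 * (M + (6 * M + J * (M * (80 * κ / A2)))) +
      8 * (2 * M) + 16 * Real.exp π * (2 * M) +
      J * (M * (80 / A1 + 320 * κ * (A1 + 1) / A2)) =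
      M * Cst + J * (M * (80 / A1 + (640 * κ + 320 * κ * (A1 + 1)) / A2)) := by
    rw [hCst]
    ring
  have h5 : 80 / A1 + (640 * κ + 320 * κ * (A1 + 1)) / A2 ≤ η / 2 := by linarith
  have h6 : (J : ℝ) * (M * (80 / A1 + (640 * κ + 320 * κ * (A1 + 1)) / A2)) ≤
      J * (M * (η / 2)) := by gcongr
  have h7 : M * Cst ≤ M * (J * (η / 2)) := mul_le_mul_of_nonneg_left hJC hM0
  have h8 : (J : ℝ) * (M * η) = M * (J * (η / 2)) + J * (M * (η / 2)) := by ring
  linarith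

end Pool.Agent.H34.TriCL
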