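import Pool.Agent.H34.Tri.CL

/-!
# The comparison lemma `cl`
-/

set_option autoImplicit false

open MeasureTheory Set Complex Metric Filter Topology
open scoped Real ENNReal NNReal FourierTransform ComplexConjugate

namespace Pool.Agent.H24.Tri

/-- `∫ f(z) f(z+v) f(z+ρv) dz` for real functions -/
noncomputable def triR (ρ : ℂ) (f : ℂ → ℝ) (v : ℂ) : ℝ := ∫ z, f z * f (z + v) * f (z + ρ * v)

/-- `N² Φ(σ_d * g_s)` -/
noncomputable def PhiC (ρ : ℂ) (f : ℂ → ℝ) (d s : ℝ) : ℝ :=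
  (2 * π)⁻¹ * ∫ θ in Ioc 0 (2 * π), ∫ w, gauss s w * triR ρ f ((d : ℂ) * cis θ + w)

/-- `N² Φ(g_s)` -/
noncomputable def PhiG (ρ : ℂ) (f : ℂ → ℝ) (s : ℝ) : ℝ := ∫ w, gauss s w * triR ρ f w

end Pool.Agent.H24.Tri

namespace Pool.Agent.H34.TriCL

open Pool.Agent.H24.Tri (gauss cis triR PhiC PhiG)

variable {f : ℂ → ℝ}

theorem bm_triR (hf : GF f) (ρ : ℂ) :
    Measurable (triR ρ f) ∧ ∀ v, |triR ρ f v| ≤ ∫ z, f z := by
  have h1 : StronglyMeasurable (fun p : ℂ × ℂ => f p.2 * f (p.2 + p.1) * f (p.2 + ρ * p.1)) :=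
    (((hf.bi.meas.comp measurable_snd).mul (hf.bi.meas.comp
      (measurable_snd.add measurable_fst))).mul (hf.bi.meas.comp
      (measurable_snd.add (measurable_fst.const_mul ρ)))).stronglyMeasurable
  refine ⟨h1.integral_prod_right'.measurable, fun v => ?_⟩
  have h0 : ∀ z, 0 ≤ f z * f (z + v) * f (z + ρ * v) := fun z =>
    mul_nonneg (mul_nonneg (hf.nonneg _) (hf.nonneg _)) (hf.nonneg _)
  unfold triR
  rw [abs_of_nonneg (integral_nonneg h0)]
  refine integral_mono ?_ hf.bi.int fun z => ?_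
  · exact ((hf.bi.mul_bm (hf.bi.bm.comp_add v)).mul_bm (hf.bi.bm.comp_add (ρ * v))).int
  · exact (mul_le_of_le_one_right (mul_nonneg (hf.nonneg _) (hf.nonneg _)) (hf.le_one _)).trans
      (mul_le_of_le_one_right (hf.nonneg _) (hf.le_one _))

theorem P_triR (hf : GF f) (ρ : ℂ) {s : ℝ} (hs : 0 < s) (a : ℂ) :
    P s (triR ρ f) a = ∫ z, f z * T ρ f s a z := by
  have e1 : P s (triR ρ f) a = ∫ w, gauss s (w - a) * triR ρ f w := by
    unfold P
    rw [← integral_sub_right_eq_self _ a]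
    congr 1
    ext w
    rw [show a + (w - a) = w by ring]
  have e2 : ∀ w, gauss s (w - a) * triR ρ f w =
      ∫ z, f z * (gauss s (w - a) * (f (z + w) * f (z + ρ * w))) := by
    intro w
    unfold triR
    rw [← integral_const_mul]
    congr 1
    ext z
    ring
  have e3 : ∀ z, f z * T ρ f s a z =
      ∫ w, f z * (gauss s (w - a) * (f (z + w) * f (z + ρ * w))) := by
    intro z
    unfold T
    rw [integral_const_mul]
  rw [e1]
  simp_rw [e2, e3]
  refine integral_integral_swap ?_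
  have h1 : Integrable (fun p : ℂ × ℂ => gauss s (p.1 - a) * f p.2)
      ((volume : Measure ℂ).prod volume) :=
    ((integrable_gauss hs).comp_sub_right a).mul_prod hf.bi.int
  have hm : Measurable (fun p : ℂ × ℂ => f (p.2 + p.1) * f (p.2 + ρ * p.1)) :=
    (hf.bi.meas.comp (measurable_snd.add measurable_fst)).mul
      (hf.bi.meas.comp (measurable_snd.add (measurable_fst.const_mul ρ)))
  have h2 := int_mul_bdd h1 hm.aestronglyMeasurable (C := 1) (fun p => by
    rw [abs_of_nonneg (mul_nonneg (hf.nonneg _) (hf.nonneg _))]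
    exact mul_le_one₀ (hf.le_one _) (hf.nonneg _) (hf.le_one _))
  refine h2.congr (Filter.Eventually.of_forall fun p => ?_)
  change gauss s (p.1 - a) * f p.2 * (f (p.2 + p.1) * f (p.2 + ρ * p.1)) =
    f p.2 * (gauss s (p.1 - a) * (f (p.2 + p.1) * f (p.2 + ρ * p.1)))
  ring

theorem abs_P_triR_sub_le (hf : GF f) (ρ : ℂ) {s η : ℝ} (hs : 0 < s) (hη : 0 < η) (a : ℂ)
    (h : ∫ z, (T ρ f s a z - T ρ f s 0 z) ^ 2 ≤ (∫ y, f y) * η ^ 2) :
    |P s (triR ρ f) a - P s (triR ρ f) 0| ≤ η * ∫ y, f y := by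
  have hTa := bi_T hf ρ hs a
  have hT0 := bi_T hf ρ hs 0
  have hd := hTa.sub hT0
  have i1 : Integrable (fun z => f z * T ρ f s a z) := (hf.bi.mul_bm hTa.bm).int
  have i2 : Integrable (fun z => f z * T ρ f s 0 z) := (hf.bi.mul_bm hT0.bm).int
  have i3 : Integrable (fun z => (T ρ f s a z - T ρ f s 0 z) ^ 2) := by
    have := (hd.mul_bm hd.bm).int
    simpa only [sq] using this
  rw [P_triR hf ρ hs, P_triR hf ρ hs, ← integral_sub i1 i2]
  refine abs_integral_le_integral_abs.trans ?_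
  have h1 : ∀ z, |f z * T ρ f s a z - f z * T ρ f s 0 z| ≤
      (η / 2) * f z + (1 / (2 * η)) * (T ρ f s a z - T ρ f s 0 z) ^ 2 := by
    intro z
    obtain ⟨D, hD⟩ : ∃ D : ℝ, D = T ρ f s a z - T ρ f s 0 z := ⟨_, rfl⟩
    have e1 : f z * T ρ f s a z - f z * T ρ f s 0 z = f z * D := by rw [hD]; ring
    rw [e1, ← hD, abs_mul, abs_of_nonneg (hf.nonneg z)]
    have h2 : f z * |D| ≤ (η / 2) * f z ^ 2 + (1 / (2 * η)) * D ^ 2 := by
      have h3 : (η / 2) * f z ^ 2 + (1 / (2 * η)) * D ^ 2 - f z * |D| =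
          (1 / (2 * η)) * (η * f z - |D|) ^ 2 := by
        rw [← sq_abs D]
        field_simp
        ring
      have h4 : 0 ≤ (1 / (2 * η)) * (η * f z - |D|) ^ 2 := by positivity
      linarith
    have h5 : f z ^ 2 ≤ f z := by
      rw [sq]
      exact mul_le_of_le_one_right (hf.nonneg z) (hf.le_one z)
    have h6 := mul_le_mul_of_nonneg_left h5 (by positivity : 0 ≤ η / 2)
    linarith
  have i4 : Integrable (fun z => (η / 2) * f z + (1 / (2 * η)) *
      (T ρ f s a z - T ρ f s 0 z) ^ 2) :=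
    (hf.bi.int.const_mul (η / 2)).add (i3.const_mul (1 / (2 * η)))
  have i5 : Integrable (fun z => |f z * T ρ f s a z - f z * T ρ f s 0 z|) := (i1.sub i2).abs
  have h2 := integral_mono i5 i4 h1
  have h3 : ∫ z, ((η / 2) * f z + (1 / (2 * η)) *
      (T ρ f s a z - T ρ f s 0 z) ^ 2) = (η / 2) * (∫ z, f z) +
      (1 / (2 * η)) * ∫ z, (T ρ f s a z - T ρ f s 0 z) ^ 2 := by
    rw [← integral_const_mul, ← integral_const_mul]
    exact integral_add (hf.bi.int.const_mul (η / 2)) (i3.const_mul (1 / (2 * η)))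
  rw [h3] at h2
  refine h2.trans ?_
  have h4 := mul_le_mul_of_nonneg_left h (by positivity : 0 ≤ 1 / (2 * η))
  have h5 : (1 / (2 * η)) * ((∫ y, f y) * η ^ 2) = (η / 2) * ∫ y, f y := by
    field_simp
  linarith

theorem gf_of {N : ℝ} (hN : 0 < N) (hm : Measurable f) (h0 : ∀ z, 0 ≤ f z) (h1 : ∀ z, f z ≤ 1)
    (hs : ∀ z, N < ‖z‖ → f z = 0) : GF f ∧ ∫ y, f y ≤ π * N ^ 2 := by
  have hle : ∀ z, f z ≤ (closedBall (0 : ℂ) N).indicator (fun _ => (1 : ℝ)) z := by
    intro z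
    by_cases hz : z ∈ closedBall (0 : ℂ) N
    · rw [indicator_of_mem hz]
      exact h1 z
    · rw [indicator_of_notMem hz]
      have : N < ‖z‖ := by
        rw [mem_closedBall, dist_zero_right] at hz
        exact not_le.1 hz
      rw [hs z this]
  have hi : Integrable ((closedBall (0 : ℂ) N).indicator (fun _ => (1 : ℝ))) :=
    (integrable_indicator_iff measurableSet_closedBall).2
      (integrableOn_const (measure_closedBall_lt_top.ne))
  have hfi : Integrable f := hi.mono' hm.aestronglyMeasurable (Filter.Eventually.of_forall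
    fun z => by
      rw [Real.norm_of_nonneg (h0 z)]
      exact hle z)
  refine ⟨⟨⟨hm, ⟨1, fun z => by
    rw [abs_of_nonneg (h0 z)]
    exact h1 z⟩, hfi⟩, h0, h1⟩, ?_⟩
  refine (integral_mono hfi hi hle).trans (le_of_eq ?_)
  rw [integral_indicator measurableSet_closedBall, setIntegral_const, smul_eq_mul, mul_one,
    Measure.real, Complex.volume_closedBall]
  rw [ENNReal.toReal_mul, ENNReal.toReal_pow, ENNReal.toReal_ofReal hN.le, mul_comm]
  congr 1

end Pool.Agent.H34.TriCL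

namespace Pool.Agent.H24.Tri

open Pool.Agent.H34.TriCL

theorem cl (ρ : ℂ) (h0 : ρ ≠ 0) (h1 : ρ ≠ 1) : ∀ δ ε : ℝ, 0 < δ → δ ≤ 1 / 2 → 0 < ε →
    ∃ (A : ℝ) (J : ℕ), 1 ≤ A ∧ ∀ d : ℕ → ℝ, (∀ k, k < J → 0 < d k) →
      (∀ k, k + 1 < J → A * d k ≤ d (k + 1)) → ∀ N : ℝ, 0 < N → ∀ f : ℂ → ℝ, Measurable f →
      (∀ z, 0 ≤ f z) → (∀ z, f z ≤ 1) → (∀ z, N < ‖z‖ → f z = 0) →
      ∃ k, k < J ∧ |PhiC ρ f (d k) (δ * d k) - PhiG ρ f (δ * d k)| ≤ ε * N ^ 2 := by
  intro δ ε hδ hδ2 hε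
  obtain ⟨A, J, hA, hJ, hcore⟩ := cl_core h0 h1 hδ hδ2 (η := (ε / 4) ^ 2) (by positivity)
  refine ⟨A, J, hA, fun d hd hdA N hN f hm hf0 hf1 hfs => ?_⟩
  obtain ⟨hf, hM⟩ := gf_of hN hm hf0 hf1 hfs
  -- extend the sequence
  set d' : ℕ → ℝ := fun k => if k < J then d k else A ^ (k + 1 - J) * d (J - 1) with hd'
  have hd'1 : ∀ k, k < J → d' k = d k := fun k hk => by simp [hd', hk]
  have hlast : 0 < d (J - 1) := hd _ (by omega)
  have hA0 : 0 < A := by linarith
  have hpos : ∀ k, 0 < d' k := by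
    intro k
    by_cases hk : k < J
    · rw [hd'1 k hk]
      exact hd k hk
    · simp only [hd', if_neg hk]
      positivity
  have hlac : ∀ k, A * d' k ≤ d' (k + 1) := by
    intro k
    by_cases hk : k + 1 < J
    · rw [hd'1 k (by omega), hd'1 (k + 1) hk]
      exact hdA k hk
    · by_cases hk2 : k < J
      · have e : k = J - 1 := by omega
        rw [hd'1 k hk2]
        simp only [hd', if_neg hk]
        rw [show k + 1 + 1 - J = 1 by omega, pow_one, e]
      · simp only [hd', if_neg hk, if_neg hk2]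
        rw [show k + 1 + 1 - J = (k + 1 - J) + 1 by omega, pow_succ]
        exact le_of_eq (by ring)
  obtain ⟨k, hk, hka⟩ := hcore d' hpos hlac f hf
  rw [hd'1 k hk] at hka
  refine ⟨k, hk, ?_⟩
  have hs : 0 < δ * d k := mul_pos hδ (hd k hk)
  set s := δ * d k with hsd
  have hdk : 0 < d k := hd k hk
  have hbound : ∀ a : ℂ, ‖a‖ ≤ d k →
      |P s (triR ρ f) a - P s (triR ρ f) 0| ≤ ε * N ^ 2 := by
    intro a ha
    refine (abs_P_triR_sub_le hf ρ hs (by positivity : 0 < ε / 4) a (hka a ha)).trans ?_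
    have h2 := Real.pi_le_four
    have h3 : ∫ y, f y ≤ 4 * N ^ 2 := hM.trans (by
      have := sq_nonneg N
      exact mul_le_mul_of_nonneg_right h2 this)
    calc ε / 4 * ∫ y, f y ≤ ε / 4 * (4 * N ^ 2) := by gcongr
      _ = ε * N ^ 2 := by ring
  obtain ⟨htm, htb⟩ := bm_triR hf ρ
  have htr : BM (triR ρ f) := ⟨htm, _, htb⟩
  have hPm : BM (P s (triR ρ f)) := bm_P hs htr
  have hcis : Measurable (fun θ : ℝ => ((d k : ℝ) : ℂ) * cis θ) := by
    unfold cis
    fun_prop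
  have e1 : PhiC ρ f (d k) s = (2 * π)⁻¹ * ∫ θ in Ioc 0 (2 * π),
      P s (triR ρ f) (((d k : ℝ) : ℂ) * cis θ) := rfl
  have e2 : PhiG ρ f s = P s (triR ρ f) 0 := by
    unfold PhiG P
    congr 1
    ext w
    rw [zero_add]
  have hvol : (volume : Measure ℝ).real (Ioc 0 (2 * π)) = 2 * π := by
    rw [Measure.real, Real.volume_Ioc, sub_zero, ENNReal.toReal_ofReal (by positivity)]
  have hpi : (0 : ℝ) < 2 * π := by positivity
  have e3 : P s (triR ρ f) 0 = (2 * π)⁻¹ * ∫ θ in Ioc 0 (2 * π), P s (triR ρ f) 0 := by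
    rw [setIntegral_const, hvol, smul_eq_mul, ← mul_assoc, inv_mul_cancel₀ hpi.ne', one_mul]
  obtain ⟨C, hC⟩ := hPm.bdd
  have hi1 : Integrable (fun θ : ℝ => P s (triR ρ f) (((d k : ℝ) : ℂ) * cis θ))
      (volume.restrict (Ioc 0 (2 * π))) := by
    refine Integrable.of_bound (hPm.meas.comp hcis).aestronglyMeasurable C
      (Filter.Eventually.of_forall fun θ => ?_)
    rw [Real.norm_eq_abs]
    exact hC _
  have hi2 : Integrable (fun _ : ℝ => P s (triR ρ f) 0)
      (volume.restrict (Ioc 0 (2 * π))) := integrable_const _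
  rw [e1, e2, e3, ← mul_sub, ← integral_sub hi1 hi2, abs_mul, abs_of_pos (inv_pos.2 hpi)]
  have h4 : ‖∫ θ in Ioc 0 (2 * π), (P s (triR ρ f) (((d k : ℝ) : ℂ) * cis θ) -
      P s (triR ρ f) 0)‖ ≤ (ε * N ^ 2) * (volume : Measure ℝ).real (Ioc 0 (2 * π)) := by
    refine norm_setIntegral_le_of_norm_le_const measure_Ioc_lt_top fun θ _ => ?_
    rw [Real.norm_eq_abs]
    refine hbound _ ?_
    have h5 : ‖cis θ‖ = 1 := Complex.norm_exp_ofReal_mul_I θ
    rw [norm_mul, h5, mul_one, Complex.norm_real, Real.norm_of_nonneg hdk.le]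
  rw [hvol, Real.norm_eq_abs] at h4
  calc (2 * π)⁻¹ * |∫ θ in Ioc 0 (2 * π), (P s (triR ρ f) (((d k : ℝ) : ℂ) * cis θ) -
        P s (triR ρ f) 0)| ≤ (2 * π)⁻¹ * (ε * N ^ 2 * (2 * π)) := by gcongr
    _ = ε * N ^ 2 := by field_simp

end Pool.Agent.H24.Tri
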