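import Pool.Agent.H34.Tri.Gauss

/-!
# Gaussian quadratic forms, translations and dilations
-/

set_option autoImplicit false

noncomputable section

open MeasureTheory Set Complex Metric
open scoped Real ENNReal NNReal

namespace Pool.Agent.H34.TriCL

open Pool.Agent.H24.Tri (gauss cis)

/-- the quadratic form `∫ F (P_l H)` -/
def Kf (l : ℝ) (F H : ℂ → ℝ) : ℝ := ∫ y, F y * P l H y

theorem Kf_comm {l : ℝ} (hl : 0 < l) {F H : ℂ → ℝ} (hF : BI F) (hH : BI H) :
    Kf l F H = Kf l H F := integral_mul_P_comm hl hF hH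

theorem Kf_anti {l L : ℝ} (hl : 0 < l) (hL : l ≤ L) {F : ℂ → ℝ} (hF : BI F) :
    Kf L F F ≤ Kf l F F := by
  rcases hL.eq_or_lt with h | h
  · rw [h]
  have ht2 : 0 < L ^ 2 - l ^ 2 := by nlinarith
  set t := Real.sqrt (L ^ 2 - l ^ 2) with ht
  have ht0 : 0 < t := Real.sqrt_pos.2 ht2
  have htsq : t ^ 2 = L ^ 2 - l ^ 2 := Real.sq_sqrt ht2.le
  set m := l / Real.sqrt 2 with hm
  have hm0 : 0 < m := by positivity
  have hmsq : m ^ 2 = l ^ 2 / 2 := by
    rw [hm, div_pow, Real.sq_sqrt (by norm_num : (0 : ℝ) ≤ 2)]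
  set G := P m F with hG
  have hGb : BI G := bi_P hm0 hF
  have h1 : ∀ y, P L F y = P m (P t G) y := by
    intro y
    rw [P_P hm0 ht0 hGb.bm, hG, P_P (Real.sqrt_pos.2 (by positivity)) hm0 hF.bm,
      Real.sq_sqrt (by positivity)]
    congr 1
    rw [hmsq, htsq, show l ^ 2 / 2 + (L ^ 2 - l ^ 2) + l ^ 2 / 2 = L ^ 2 by ring,
      Real.sqrt_sq (by linarith)]
  have h2 : ∀ y, P l F y = P m G y := by
    intro y
    rw [hG, P_P hm0 hm0 hF.bm]
    congr 1
    rw [hmsq, show l ^ 2 / 2 + l ^ 2 / 2 = l ^ 2 by ring, Real.sqrt_sq hl.le]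
  have h3 : Kf L F F = ∫ y, G y * P t G y := by
    unfold Kf
    simp_rw [h1]
    rw [integral_mul_P_comm hm0 hF (bi_P ht0 hGb)]
    congr 1
    ext y
    rw [mul_comm]
  have h4 : Kf l F F = ∫ y, G y ^ 2 := by
    unfold Kf
    simp_rw [h2]
    rw [integral_mul_P_comm hm0 hF hGb]
    congr 1
    ext y
    rw [sq]
  rw [h3, h4]
  exact integral_mul_P_self_le ht0 hGb

theorem int_FPH {l : ℝ} (hl : 0 < l) {F H : ℂ → ℝ} (hF : BI F) (hH : BI H) :
    Integrable (fun y => F y * P l H y) := (hF.mul_bm (bm_P hl hH.bm)).int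

theorem Kf_add_add {l : ℝ} (hl : 0 < l) {F H : ℂ → ℝ} (hF : BI F) (hH : BI H) :
    Kf l (fun z => F z + H z) (fun z => F z + H z) = Kf l F F + 2 * Kf l F H + Kf l H H := by
  have h1 : Kf l (fun z => F z + H z) (fun z => F z + H z) =
      Kf l F F + Kf l F H + (Kf l H F + Kf l H H) := by
    have i1 : Integrable (fun y => F y * P l F y + F y * P l H y) :=
      (int_FPH hl hF hF).add (int_FPH hl hF hH)
    have i2 : Integrable (fun y => H y * P l F y + H y * P l H y) :=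
      (int_FPH hl hH hF).add (int_FPH hl hH hH)
    unfold Kf
    rw [← integral_add (int_FPH hl hF hF) (int_FPH hl hF hH),
      ← integral_add (int_FPH hl hH hF) (int_FPH hl hH hH), ← integral_add i1 i2]
    congr 1
    ext y
    rw [P_add hl hF.bm hH.bm]
    ring
  rw [h1, Kf_comm hl hH hF]
  ring

theorem Kf_sub_sub {l : ℝ} (hl : 0 < l) {F H : ℂ → ℝ} (hF : BI F) (hH : BI H) :
    Kf l (fun z => F z - H z) (fun z => F z - H z) = Kf l F F - 2 * Kf l F H + Kf l H H := by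
  have h1 : Kf l (fun z => F z - H z) (fun z => F z - H z) =
      Kf l F F - Kf l F H - (Kf l H F - Kf l H H) := by
    have i1 : Integrable (fun y => F y * P l F y - F y * P l H y) :=
      (int_FPH hl hF hF).sub (int_FPH hl hF hH)
    have i2 : Integrable (fun y => H y * P l F y - H y * P l H y) :=
      (int_FPH hl hH hF).sub (int_FPH hl hH hH)
    unfold Kf
    rw [← integral_sub (int_FPH hl hF hF) (int_FPH hl hF hH),
      ← integral_sub (int_FPH hl hH hF) (int_FPH hl hH hH), ← integral_sub i1 i2]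
    congr 1
    ext y
    rw [P_sub hl hF.bm hH.bm]
    ring
  rw [h1, Kf_comm hl hH hF]
  ring

theorem abs_Kf_sub_le {l L : ℝ} (hl : 0 < l) (hL : l ≤ L) {F H : ℂ → ℝ} (hF : BI F)
    (hH : BI H) : |Kf l F H - Kf L F H| ≤
      (1 / 2) * ((Kf l F F - Kf L F F) + (Kf l H H - Kf L H H)) := by
  have hL0 : 0 < L := hl.trans_le hL
  have h1 := Kf_anti hl hL (hF.add hH)
  have h2 := Kf_anti hl hL (hF.sub hH)
  rw [Kf_add_add hl hF hH, Kf_add_add hL0 hF hH] at h1
  rw [Kf_sub_sub hl hF hH, Kf_sub_sub hL0 hF hH] at h2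
  rw [abs_le]
  constructor <;> linarith

theorem Kf_shift (l : ℝ) (F H : ℂ → ℝ) (c : ℂ) :
    Kf l (fun z => F (z + c)) (fun z => H (z + c)) = Kf l F H := by
  unfold Kf
  simp_rw [P_comp_add]
  exact integral_add_right_eq_self (fun y => F y * P l H y) c

/-- first moment of a Gaussian -/
theorem norm_mul_gauss_le {s : ℝ} (hs : 0 < s) (h : ℂ) :
    ‖h‖ * gauss s h ≤ s * gauss (Real.sqrt 2 * s) h := by
  unfold gauss
  have h2 : Real.sqrt 2 ^ 2 = 2 := Real.sq_sqrt (by norm_num)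
  rw [mul_pow, h2]
  set x := ‖h‖ / s with hx
  have hx0 : 0 ≤ x := by positivity
  have e1 : ‖h‖ = x * s := by rw [hx]; field_simp
  have e2 : -π * ‖h‖ ^ 2 / s ^ 2 = -π * x ^ 2 := by rw [e1]; field_simp
  have e3 : -π * ‖h‖ ^ 2 / (2 * s ^ 2) = -(π * x ^ 2 / 2) := by rw [e1]; field_simp
  have e4 : -π * x ^ 2 = -(π * x ^ 2 / 2) + -(π * x ^ 2 / 2) := by ring
  rw [e2, e3, e4, Real.exp_add]
  set E := Real.exp (-(π * x ^ 2 / 2)) with hE
  have hE0 : 0 < E := Real.exp_pos _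
  have h3 : x * E ≤ 1 / 2 := by
    have h4 : E * (1 + x ^ 2) ≤ 1 := by
      have h5 : 1 + x ^ 2 ≤ Real.exp (π * x ^ 2 / 2) := by
        have h6 := Real.add_one_le_exp (π * x ^ 2 / 2)
        have h7 : x ^ 2 ≤ π * x ^ 2 / 2 := by
          have := Real.pi_gt_three
          nlinarith [sq_nonneg x]
        linarith
      calc E * (1 + x ^ 2) ≤ E * Real.exp (π * x ^ 2 / 2) :=
            mul_le_mul_of_nonneg_left h5 hE0.le
        _ = 1 := by rw [hE, ← Real.exp_add]; simp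
    nlinarith [sq_nonneg (x - 1)]
  rw [e1]
  have h8 : x * s * ((s ^ 2)⁻¹ * (E * E)) = (x * E) * (E * (s * (s ^ 2)⁻¹)) := by ring
  have h9 : s * ((2 * s ^ 2)⁻¹ * E) = (1 / 2) * (E * (s * (s ^ 2)⁻¹)) := by
    rw [mul_inv]
    ring
  rw [h8, h9]
  exact mul_le_mul_of_nonneg_right h3 (by positivity)

theorem int_norm_gauss {s : ℝ} (hs : 0 < s) : Integrable (fun h : ℂ => ‖h‖ * gauss s h) := by
  have h1 : Integrable (fun h : ℂ => s * gauss (Real.sqrt 2 * s) h) :=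
    (integrable_gauss (by positivity)).const_mul s
  refine h1.mono' (continuous_norm.mul (continuous_gauss s)).aestronglyMeasurable
    (Filter.Eventually.of_forall fun h => ?_)
  rw [Real.norm_of_nonneg (mul_nonneg (norm_nonneg _) (gauss_nonneg _ _))]
  exact norm_mul_gauss_le hs h

theorem integral_norm_gauss_le {s : ℝ} (hs : 0 < s) : ∫ h : ℂ, ‖h‖ * gauss s h ≤ s := by
  have h1 := integral_mono (int_norm_gauss hs)
    ((integrable_gauss (s := Real.sqrt 2 * s) (by positivity)).const_mul s)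
    (fun h => norm_mul_gauss_le hs h)
  rw [integral_const_mul, integral_gauss (by positivity), mul_one] at h1
  exact h1

theorem abs_exp_neg_sub_le {a b : ℝ} : |Real.exp (-a) - Real.exp (-b)| ≤
    |a - b| * (Real.exp (-a) + Real.exp (-b)) := by
  have key : ∀ a b : ℝ, Real.exp (-a) - Real.exp (-b) ≤
      |a - b| * (Real.exp (-a) + Real.exp (-b)) := by
    intro a b
    have h1 : Real.exp (-a) * (1 - (b - a)) ≤ Real.exp (-b) := by
      have h2 := Real.add_one_le_exp (-(b - a))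
      have h3 : Real.exp (-b) = Real.exp (-a) * Real.exp (-(b - a)) := by
        rw [← Real.exp_add]
        congr 1
        ring
      rw [h3]
      exact mul_le_mul_of_nonneg_left (by linarith) (Real.exp_pos _).le
    have h4 : b - a ≤ |a - b| := by
      rw [abs_sub_comm]
      exact le_abs_self _
    have h5 := Real.exp_pos (-a)
    have h6 := Real.exp_pos (-b)
    have h7 : 0 ≤ |a - b| := abs_nonneg _
    nlinarith [mul_le_mul_of_nonneg_left h4 h5.le, mul_nonneg h7 h6.le]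
  rw [abs_le]
  constructor
  · have := key b a
    rw [abs_sub_comm b a] at this
    linarith
  · exact key a b

theorem abs_gauss_sub_le {s : ℝ} (hs : 0 < s) (h c : ℂ) :
    |gauss s (h - c) - gauss s h| ≤ (π * ‖c‖ / s ^ 2) *
      ((2 * ‖h - c‖ + ‖c‖) * gauss s (h - c) + (2 * ‖h‖ + ‖c‖) * gauss s h) := by
  have hs2 : 0 < s ^ 2 := by positivity
  have e : ∀ w : ℂ, gauss s w = (s ^ 2)⁻¹ * Real.exp (-(π * ‖w‖ ^ 2 / s ^ 2)) := by
    intro w
    unfold gauss
    congr 2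
    ring
  have h1 := abs_exp_neg_sub_le (a := π * ‖h - c‖ ^ 2 / s ^ 2) (b := π * ‖h‖ ^ 2 / s ^ 2)
  have h2 : |π * ‖h - c‖ ^ 2 / s ^ 2 - π * ‖h‖ ^ 2 / s ^ 2| ≤
      (π * ‖c‖ / s ^ 2) * (‖h - c‖ + ‖h‖) := by
    have h3 : π * ‖h - c‖ ^ 2 / s ^ 2 - π * ‖h‖ ^ 2 / s ^ 2 =
        (π / s ^ 2) * ((‖h - c‖ - ‖h‖) * (‖h - c‖ + ‖h‖)) := by
      field_simp
      ring
    rw [h3, abs_mul, abs_mul, abs_of_nonneg (by positivity : 0 ≤ π / s ^ 2),
      abs_of_nonneg (by positivity : 0 ≤ ‖h - c‖ + ‖h‖)]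
    have h4 : |‖h - c‖ - ‖h‖| ≤ ‖c‖ := by
      have := abs_norm_sub_norm_le (h - c) h
      have h5 : h - c - h = -c := by ring
      rwa [h5, norm_neg] at this
    calc π / s ^ 2 * (|‖h - c‖ - ‖h‖| * (‖h - c‖ + ‖h‖)) ≤
          π / s ^ 2 * (‖c‖ * (‖h - c‖ + ‖h‖)) := by gcongr
      _ = _ := by ring
  set A := gauss s (h - c) with hA
  set B := gauss s h with hB
  have hA0 : 0 ≤ A := gauss_nonneg _ _
  have hB0 : 0 ≤ B := gauss_nonneg _ _
  have h6 : |A - B| ≤ (π * ‖c‖ / s ^ 2) * (‖h - c‖ + ‖h‖) * (A + B) := by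
    have h7 : A - B = (s ^ 2)⁻¹ * (Real.exp (-(π * ‖h - c‖ ^ 2 / s ^ 2)) -
        Real.exp (-(π * ‖h‖ ^ 2 / s ^ 2))) := by
      rw [hA, hB, e, e]
      ring
    have h8 : A + B = (s ^ 2)⁻¹ * (Real.exp (-(π * ‖h - c‖ ^ 2 / s ^ 2)) +
        Real.exp (-(π * ‖h‖ ^ 2 / s ^ 2))) := by
      rw [hA, hB, e, e]
      ring
    rw [h7, h8, abs_mul, abs_of_pos (inv_pos.2 hs2)]
    have h9 : 0 < Real.exp (-(π * ‖h - c‖ ^ 2 / s ^ 2)) + Real.exp (-(π * ‖h‖ ^ 2 / s ^ 2)) := by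
      positivity
    calc (s ^ 2)⁻¹ * |Real.exp (-(π * ‖h - c‖ ^ 2 / s ^ 2)) - Real.exp (-(π * ‖h‖ ^ 2 / s ^ 2))|
        ≤ (s ^ 2)⁻¹ * (|π * ‖h - c‖ ^ 2 / s ^ 2 - π * ‖h‖ ^ 2 / s ^ 2| *
          (Real.exp (-(π * ‖h - c‖ ^ 2 / s ^ 2)) + Real.exp (-(π * ‖h‖ ^ 2 / s ^ 2)))) := by
          gcongr
      _ ≤ (s ^ 2)⁻¹ * ((π * ‖c‖ / s ^ 2) * (‖h - c‖ + ‖h‖) *
          (Real.exp (-(π * ‖h - c‖ ^ 2 / s ^ 2)) + Real.exp (-(π * ‖h‖ ^ 2 / s ^ 2)))) := by
          gcongr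
      _ = _ := by ring
  refine h6.trans ?_
  rw [mul_assoc]
  refine mul_le_mul_of_nonneg_left ?_ (by positivity)
  have h10 : ‖h‖ ≤ ‖h - c‖ + ‖c‖ := by
    have := norm_add_le (h - c) c
    rwa [sub_add_cancel] at this
  have h11 : ‖h - c‖ ≤ ‖h‖ + ‖c‖ := norm_sub_le h c
  nlinarith [mul_le_mul_of_nonneg_right h10 hA0, mul_le_mul_of_nonneg_right h11 hB0]

theorem integral_abs_gauss_sub_le {s : ℝ} (hs : 0 < s) (c : ℂ) :
    ∫ h : ℂ, |gauss s (h - c) - gauss s h| ≤ 20 * ‖c‖ / s := by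
  have hi1 : Integrable (fun h : ℂ => gauss s (h - c)) := (integrable_gauss hs).comp_sub_right c
  have hi2 : Integrable (fun h : ℂ => gauss s h) := integrable_gauss hs
  have hi : Integrable (fun h : ℂ => |gauss s (h - c) - gauss s h|) := (hi1.sub hi2).abs
  rcases le_or_gt ‖c‖ s with hc | hc
  · have hm1 : Integrable (fun h : ℂ => ‖h - c‖ * gauss s (h - c)) :=
      (int_norm_gauss hs).comp_sub_right c
    have hm2 : Integrable (fun h : ℂ => ‖h‖ * gauss s h) := int_norm_gauss hs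
    have hA : Integrable (fun h : ℂ => (2 * ‖h - c‖ + ‖c‖) * gauss s (h - c)) := by
      have := (hm1.const_mul 2).add (hi1.const_mul ‖c‖)
      refine this.congr (Filter.Eventually.of_forall fun h => ?_)
      simp only [Pi.add_apply]
      ring
    have hB : Integrable (fun h : ℂ => (2 * ‖h‖ + ‖c‖) * gauss s h) := by
      have := (hm2.const_mul 2).add (hi2.const_mul ‖c‖)
      refine this.congr (Filter.Eventually.of_forall fun h => ?_)
      simp only [Pi.add_apply]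
      ring
    have h1 := integral_mono hi ((hA.add hB).const_mul (π * ‖c‖ / s ^ 2))
      (fun h => abs_gauss_sub_le hs h c)
    have hvB : ∫ h : ℂ, (2 * ‖h‖ + ‖c‖) * gauss s h ≤ 2 * s + ‖c‖ := by
      have h2 : (fun h : ℂ => (2 * ‖h‖ + ‖c‖) * gauss s h) =
          fun h => 2 * (‖h‖ * gauss s h) + ‖c‖ * gauss s h := by
        ext h
        ring
      rw [h2, integral_add (hm2.const_mul 2) (hi2.const_mul ‖c‖), integral_const_mul,
        integral_const_mul, integral_gauss hs]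
      have := integral_norm_gauss_le hs
      linarith
    have hvA : ∫ h : ℂ, (2 * ‖h - c‖ + ‖c‖) * gauss s (h - c) ≤ 2 * s + ‖c‖ := by
      rw [integral_sub_right_eq_self (fun h : ℂ => (2 * ‖h‖ + ‖c‖) * gauss s h) c]
      exact hvB
    have h3 : ∫ h : ℂ, (π * ‖c‖ / s ^ 2) * ((2 * ‖h - c‖ + ‖c‖) * gauss s (h - c) +
        (2 * ‖h‖ + ‖c‖) * gauss s h) ≤ (π * ‖c‖ / s ^ 2) * (6 * s) := by
      rw [integral_const_mul, integral_add hA hB]
      refine mul_le_mul_of_nonneg_left ?_ (by positivity)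
      linarith
    refine (h1.trans h3).trans ?_
    have h4 : π * ‖c‖ / s ^ 2 * (6 * s) = 6 * π * (‖c‖ / s) := by
      field_simp
    rw [h4, mul_div_assoc]
    have h5 := Real.pi_lt_d2
    exact mul_le_mul_of_nonneg_right (by linarith) (by positivity)
  · have h1 : ∫ h : ℂ, |gauss s (h - c) - gauss s h| ≤
        ∫ h : ℂ, (gauss s (h - c) + gauss s h) := by
      refine integral_mono hi (hi1.add hi2) fun h => ?_
      refine (abs_sub _ _).trans ?_
      rw [abs_of_nonneg (gauss_nonneg _ _), abs_of_nonneg (gauss_nonneg _ _)]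
    rw [integral_add hi1 hi2, integral_gauss_sub hs, integral_gauss hs] at h1
    have h2 : 1 ≤ ‖c‖ / s := by
      rw [le_div_iff₀ hs]
      linarith
    rw [mul_div_assoc]
    linarith

/-- Gaussian averages vary slowly -/
theorem abs_P_add_sub_le {s : ℝ} (hs : 0 < s) {v : ℂ → ℝ} (hv : BM v) {C : ℝ}
    (hC : ∀ z, |v z| ≤ C) (y c : ℂ) : |P s v (y + c) - P s v y| ≤ C * (20 * ‖c‖ / s) := by
  have hC0 : 0 ≤ C := (abs_nonneg _).trans (hC 0)
  have hi1 : Integrable (fun h : ℂ => gauss s (h - c)) := (integrable_gauss hs).comp_sub_right c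
  have hi2 : Integrable (fun h : ℂ => gauss s h) := integrable_gauss hs
  have e1 : P s v (y + c) = ∫ h, gauss s (h - c) * v (y + h) := by
    unfold P
    rw [← integral_sub_right_eq_self _ c]
    congr 1
    ext h
    rw [show y + c + (h - c) = y + h by ring]
  have hv' := hv.comp_add' y
  have hj1 : Integrable (fun h : ℂ => gauss s (h - c) * v (y + h)) :=
    int_mul_bdd hi1 hv'.meas.aestronglyMeasurable fun z => hC _
  have hj2 : Integrable (fun h : ℂ => gauss s h * v (y + h)) :=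
    int_mul_bdd hi2 hv'.meas.aestronglyMeasurable fun z => hC _
  have e2 : P s v (y + c) - P s v y = ∫ h, (gauss s (h - c) - gauss s h) * v (y + h) := by
    rw [e1]
    unfold P
    rw [← integral_sub hj1 hj2]
    congr 1
    ext h
    ring
  rw [e2]
  have h1 : |∫ h, (gauss s (h - c) - gauss s h) * v (y + h)| ≤
      ∫ h, |(gauss s (h - c) - gauss s h) * v (y + h)| := abs_integral_le_integral_abs
  refine h1.trans ?_
  have h2 : ∫ h, |(gauss s (h - c) - gauss s h) * v (y + h)| ≤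
      ∫ h, C * |gauss s (h - c) - gauss s h| := by
    refine integral_mono ?_ ((hi1.sub hi2).abs.const_mul C) fun h => ?_
    · exact (int_mul_bdd (hi1.sub hi2) hv'.meas.aestronglyMeasurable fun z => hC _).abs
    · simp only
      rw [abs_mul, mul_comm]
      exact mul_le_mul_of_nonneg_right (hC _) (abs_nonneg _)
  refine h2.trans ?_
  rw [integral_const_mul]
  exact mul_le_mul_of_nonneg_left (integral_abs_gauss_sub_le hs c) hC0

/-- complex dilations -/
theorem integral_comp_mul {lam : ℂ} (hl : lam ≠ 0) (Θ : ℂ → ℝ) :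
    ∫ w, Θ (lam * w) = (‖lam‖ ^ 2)⁻¹ * ∫ w, Θ w := by
  have hn : (‖lam‖ : ℂ) ≠ 0 := by
    simpa using hl
  have hn0 : 0 < ‖lam‖ := norm_pos_iff.2 hl
  have hc : ‖lam / (‖lam‖ : ℂ)‖ = 1 := by
    rw [norm_div, Complex.norm_real, norm_norm, div_self (norm_ne_zero_iff.2 hl)]
  set a : Circle := ⟨lam / (‖lam‖ : ℂ), by simpa [Submonoid.unitSphere] using hc⟩ with ha
  have h1 : ∀ w : ℂ, Θ (lam * w) = Θ (rotation a (‖lam‖ • w)) := by
    intro w
    rw [rotation_apply, ha]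
    congr 1
    simp only [Complex.real_smul]
    field_simp
  simp_rw [h1]
  rw [MeasureTheory.Measure.integral_comp_smul volume (fun w => Θ (rotation a w)) ‖lam‖,
    Complex.finrank_real_complex, abs_of_pos (inv_pos.2 (by positivity)), smul_eq_mul]
  congr 1
  exact ((rotation a).measurePreserving).integral_comp
    (rotation a).toHomeomorph.measurableEmbedding Θ

theorem P_comp_mul {lam : ℂ} (hl : lam ≠ 0) {r : ℝ} (hr : 0 < r) (Θ : ℂ → ℝ) (y : ℂ) :
    ∫ w, gauss r w * Θ (y + lam * w) = P (‖lam‖ * r) Θ y := by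
  have hn0 : 0 < ‖lam‖ := norm_pos_iff.2 hl
  have h1 : ∀ w : ℂ, gauss r w * Θ (y + lam * w) =
      (fun x => (‖lam‖ ^ 2 * gauss (‖lam‖ * r) x) * Θ (y + x)) (lam * w) := by
    intro w
    simp only
    congr 1
    unfold gauss
    rw [norm_mul, mul_pow, mul_pow]
    have e1 : -π * (‖lam‖ ^ 2 * ‖w‖ ^ 2) / (‖lam‖ ^ 2 * r ^ 2) = -π * ‖w‖ ^ 2 / r ^ 2 := by
      field_simp
    rw [e1]
    field_simp
  simp_rw [h1]
  rw [integral_comp_mul hl (fun x => (‖lam‖ ^ 2 * gauss (‖lam‖ * r) x) * Θ (y + x))]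
  unfold P
  rw [← integral_const_mul]
  congr 1
  ext x
  field_simp

/-- comparison of off-centre and centred Gaussian averages -/
theorem P_neg_le {c : ℝ} (hc : 0 < c) {q : ℂ → ℝ} (hq : BM q) (hq0 : ∀ z, 0 ≤ q z) {a : ℂ}
    (ha : ‖a‖ ≤ c) : P c q (-a) ≤ (2 * Real.exp π) * P (Real.sqrt 2 * c) q 0 := by
  have h2c : 0 < Real.sqrt 2 * c := by positivity
  have e1 : P c q (-a) = ∫ h, gauss c (h + a) * q h := by
    unfold P
    rw [← integral_add_right_eq_self _ a]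
    congr 1
    ext h
    rw [show -a + (h + a) = h by ring]
  have e2 : (2 * Real.exp π) * P (Real.sqrt 2 * c) q 0 =
      ∫ h, (2 * Real.exp π * gauss (Real.sqrt 2 * c) h) * q h := by
    unfold P
    rw [← integral_const_mul]
    congr 1
    ext h
    rw [zero_add]
    ring
  rw [e1, e2]
  obtain ⟨C, hC⟩ := hq.bdd
  refine integral_mono (int_mul_bdd (integrable_gauss_add hc a) hq.meas.aestronglyMeasurable hC)
    (int_mul_bdd ((integrable_gauss h2c).const_mul _) hq.meas.aestronglyMeasurable hC) fun h => ?_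
  refine mul_le_mul_of_nonneg_right ?_ (hq0 h)
  unfold gauss
  have h2 : Real.sqrt 2 ^ 2 = 2 := Real.sq_sqrt (by norm_num)
  rw [mul_pow, h2]
  have h3 : -π * ‖h + a‖ ^ 2 / c ^ 2 ≤ π + -π * ‖h‖ ^ 2 / (2 * c ^ 2) := by
    have h4 : ‖h‖ ^ 2 ≤ 2 * ‖h + a‖ ^ 2 + 2 * ‖a‖ ^ 2 := by
      have h5 : ‖h‖ ≤ ‖h + a‖ + ‖a‖ := by
        have := norm_sub_le (h + a) a
        rwa [add_sub_cancel_right] at this
      nlinarith [norm_nonneg h, norm_nonneg (h + a), norm_nonneg a,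
        sq_nonneg (‖h + a‖ - ‖a‖)]
    have h6 : ‖a‖ ^ 2 ≤ c ^ 2 := pow_le_pow_left₀ (norm_nonneg _) ha 2
    have h7 : ‖h‖ ^ 2 ≤ 2 * ‖h + a‖ ^ 2 + 2 * c ^ 2 := by linarith
    have h8 : π + -π * ‖h‖ ^ 2 / (2 * c ^ 2) - -π * ‖h + a‖ ^ 2 / c ^ 2 =
        π * (2 * ‖h + a‖ ^ 2 + 2 * c ^ 2 - ‖h‖ ^ 2) / (2 * c ^ 2) := by
      field_simp
      ring
    have h9 : 0 ≤ π * (2 * ‖h + a‖ ^ 2 + 2 * c ^ 2 - ‖h‖ ^ 2) / (2 * c ^ 2) := by
      have : 0 ≤ 2 * ‖h + a‖ ^ 2 + 2 * c ^ 2 - ‖h‖ ^ 2 := by linarith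
      positivity
    linarith
  have h10 := Real.exp_le_exp.2 h3
  rw [Real.exp_add] at h10
  calc (c ^ 2)⁻¹ * Real.exp (-π * ‖h + a‖ ^ 2 / c ^ 2) ≤
        (c ^ 2)⁻¹ * (Real.exp π * Real.exp (-π * ‖h‖ ^ 2 / (2 * c ^ 2))) := by gcongr
    _ = 2 * Real.exp π * ((2 * c ^ 2)⁻¹ * Real.exp (-π * ‖h‖ ^ 2 / (2 * c ^ 2))) := by
      field_simp

end Pool.Agent.H34.TriCL
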