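import Pool.Agent.H24.Tri.Defs

/-!
# Gaussian averages in the plane
-/

set_option autoImplicit false

noncomputable section

open MeasureTheory Set Complex Metric
open scoped Real ENNReal NNReal

namespace Pool.Agent.H34.TriCL

open Pool.Agent.H24.Tri (gauss cis)

theorem gauss_nonneg (s : ℝ) (w : ℂ) : 0 ≤ gauss s w :=
  mul_nonneg (inv_nonneg.2 (sq_nonneg s)) (Real.exp_nonneg _)

theorem gauss_neg (s : ℝ) (w : ℂ) : gauss s (-w) = gauss s w := by
  simp [gauss]

theorem continuous_gauss (s : ℝ) : Continuous (gauss s) := by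
  unfold gauss
  fun_prop

theorem measurable_gauss (s : ℝ) : Measurable (gauss s) := (continuous_gauss s).measurable

theorem gauss_le (s : ℝ) (w : ℂ) : gauss s w ≤ (s ^ 2)⁻¹ := by
  unfold gauss
  refine mul_le_of_le_one_right (inv_nonneg.2 (sq_nonneg s)) (Real.exp_le_one_iff.2 ?_)
  have h1 : 0 ≤ π * ‖w‖ ^ 2 / s ^ 2 := by positivity
  have h2 : -π * ‖w‖ ^ 2 / s ^ 2 = -(π * ‖w‖ ^ 2 / s ^ 2) := by ring
  linarith

theorem integral_gauss {s : ℝ} (hs : 0 < s) : ∫ w, gauss s w = 1 := by
  have h1 : ∫ w : ℂ, Real.exp (-(π / s ^ 2) * ‖w‖ ^ 2) = s ^ 2 := by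
    rw [GaussianFourier.integral_rexp_neg_mul_sq_norm (by positivity)]
    have h2 : π / (π / s ^ 2) = s ^ 2 := by
      field_simp
    rw [h2, Complex.finrank_real_complex]
    norm_num
  have h3 : ∀ w : ℂ, gauss s w = (s ^ 2)⁻¹ * Real.exp (-(π / s ^ 2) * ‖w‖ ^ 2) := by
    intro w
    unfold gauss
    congr 2
    ring
  simp_rw [h3]
  rw [integral_const_mul, h1]
  exact inv_mul_cancel₀ (by positivity)

theorem integrable_gauss {s : ℝ} (hs : 0 < s) : Integrable (gauss s) := by
  by_contra h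
  have h1 := integral_gauss hs
  rw [integral_undef h] at h1
  exact one_ne_zero h1.symm

theorem integrable_gauss_add {s : ℝ} (hs : 0 < s) (a : ℂ) :
    Integrable (fun w => gauss s (w + a)) := (integrable_gauss hs).comp_add_right a

theorem integral_gauss_add {s : ℝ} (hs : 0 < s) (a : ℂ) :
    ∫ w, gauss s (w + a) = 1 := by
  rw [integral_add_right_eq_self (gauss s) a, integral_gauss hs]

theorem integral_gauss_sub {s : ℝ} (hs : 0 < s) (a : ℂ) :
    ∫ w, gauss s (w - a) = 1 := by
  rw [integral_sub_right_eq_self (gauss s) a, integral_gauss hs]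

/-- product of two Gaussians -/
theorem gauss_mul_gauss {t r : ℝ} (ht : 0 < t) (hr : 0 < r) (x h : ℂ) :
    gauss t x * gauss r (h - x) = gauss (Real.sqrt (t ^ 2 + r ^ 2)) h *
      gauss (t * r / Real.sqrt (t ^ 2 + r ^ 2)) (x - ((t ^ 2 / (t ^ 2 + r ^ 2) : ℝ) : ℂ) * h) := by
  have hT : 0 < t ^ 2 + r ^ 2 := by positivity
  unfold gauss
  rw [div_pow, Real.sq_sqrt hT.le]
  have e1 : ∀ a b c d : ℝ, a * Real.exp b * (c * Real.exp d) = a * c * Real.exp (b + d) := by
    intro a b c d
    rw [Real.exp_add]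
    ring
  rw [e1, e1]
  congr 1
  · field_simp
  · congr 1
    simp only [Complex.sq_norm, Complex.normSq_apply]
    simp only [Complex.sub_re, Complex.sub_im, Complex.mul_re, Complex.mul_im, Complex.ofReal_re,
      Complex.ofReal_im]
    field_simp
    ring

/-- the product identity used for the Gram matrix -/
theorem gauss_mul_gauss' {s : ℝ} (hs : 0 < s) (a b w h : ℂ) :
    gauss s (w - a) * gauss s (w + h - b) = gauss (Real.sqrt 2 * s) (b - a - h) *
      gauss (s / Real.sqrt 2) (w - (a + b - h) / 2) := by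
  unfold gauss
  have h2 : Real.sqrt 2 ^ 2 = 2 := Real.sq_sqrt (by norm_num)
  rw [mul_pow, div_pow, h2]
  have e1 : ∀ a b c d : ℝ, a * Real.exp b * (c * Real.exp d) = a * c * Real.exp (b + d) := by
    intro a b c d
    rw [Real.exp_add]
    ring
  rw [e1, e1]
  congr 1
  · field_simp
  · congr 1
    simp only [Complex.sq_norm, Complex.normSq_apply]
    have h3 : ∀ z : ℂ, (z / 2).re = z.re / 2 := fun z => by simp
    have h4 : ∀ z : ℂ, (z / 2).im = z.im / 2 := fun z => by simp
    simp only [Complex.sub_re, Complex.sub_im, Complex.add_re, Complex.add_im, h3, h4]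
    field_simp
    ring

/-- bounded measurable functions -/
structure BM (v : ℂ → ℝ) : Prop where
  meas : Measurable v
  bdd : ∃ C : ℝ, ∀ z, |v z| ≤ C

/-- bounded integrable functions -/
structure BI (v : ℂ → ℝ) : Prop where
  meas : Measurable v
  bdd : ∃ C : ℝ, ∀ z, |v z| ≤ C
  int : Integrable v

theorem BI.bm {v : ℂ → ℝ} (h : BI v) : BM v := ⟨h.meas, h.bdd⟩

theorem BM.add {v w : ℂ → ℝ} (hv : BM v) (hw : BM w) : BM (fun z => v z + w z) := by
  obtain ⟨C, hC⟩ := hv.bdd
  obtain ⟨D, hD⟩ := hw.bdd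
  exact ⟨hv.meas.add hw.meas, C + D, fun z => (abs_add_le _ _).trans (add_le_add (hC z) (hD z))⟩

theorem BM.sub {v w : ℂ → ℝ} (hv : BM v) (hw : BM w) : BM (fun z => v z - w z) := by
  obtain ⟨C, hC⟩ := hv.bdd
  obtain ⟨D, hD⟩ := hw.bdd
  exact ⟨hv.meas.sub hw.meas, C + D, fun z => (abs_sub _ _).trans (add_le_add (hC z) (hD z))⟩

theorem BM.comp_add {v : ℂ → ℝ} (hv : BM v) (c : ℂ) : BM (fun z => v (z + c)) := by
  obtain ⟨C, hC⟩ := hv.bdd
  exact ⟨hv.meas.comp (measurable_id.add_const c), C, fun z => hC _⟩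

theorem BM.comp_add' {v : ℂ → ℝ} (hv : BM v) (c : ℂ) : BM (fun z => v (c + z)) := by
  obtain ⟨C, hC⟩ := hv.bdd
  exact ⟨hv.meas.comp (measurable_id.const_add c), C, fun z => hC _⟩

theorem BI.comp_add {v : ℂ → ℝ} (hv : BI v) (c : ℂ) : BI (fun z => v (z + c)) := by
  obtain ⟨C, hC⟩ := hv.bdd
  exact ⟨hv.meas.comp (measurable_id.add_const c), ⟨C, fun z => hC _⟩, hv.int.comp_add_right c⟩

theorem BI.add {v w : ℂ → ℝ} (hv : BI v) (hw : BI w) : BI (fun z => v z + w z) :=
  ⟨(hv.bm.add hw.bm).meas, (hv.bm.add hw.bm).bdd, hv.int.add hw.int⟩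

theorem BI.sub {v w : ℂ → ℝ} (hv : BI v) (hw : BI w) : BI (fun z => v z - w z) :=
  ⟨(hv.bm.sub hw.bm).meas, (hv.bm.sub hw.bm).bdd, hv.int.sub hw.int⟩

/-- integrable times bounded -/
theorem int_mul_bdd {α : Type*} [MeasurableSpace α] {μ : Measure α} {u v : α → ℝ}
    (hu : Integrable u μ) (hv : AEStronglyMeasurable v μ) {C : ℝ} (hC : ∀ z, |v z| ≤ C) :
    Integrable (fun z => u z * v z) μ :=
  hu.mul_bdd (c := C) hv (Filter.Eventually.of_forall fun z => by simpa using hC z)

theorem BI.mul_bm {u v : ℂ → ℝ} (hu : BI u) (hv : BM v) : BI (fun z => u z * v z) := by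
  obtain ⟨C, hC⟩ := hv.bdd
  obtain ⟨D, hD⟩ := hu.bdd
  refine ⟨hu.meas.mul hv.meas, ⟨D * C, fun z => ?_⟩,
    int_mul_bdd hu.int hv.meas.aestronglyMeasurable hC⟩
  rw [abs_mul]
  exact mul_le_mul (hD z) (hC z) (abs_nonneg _) ((abs_nonneg _).trans (hD z))

theorem int_gauss_mul {s : ℝ} (hs : 0 < s) {v : ℂ → ℝ} (hv : BM v) :
    Integrable (fun h => gauss s h * v h) := by
  obtain ⟨C, hC⟩ := hv.bdd
  exact int_mul_bdd (integrable_gauss hs) hv.meas.aestronglyMeasurable hC

/-- the Gaussian average -/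
def P (s : ℝ) (v : ℂ → ℝ) (y : ℂ) : ℝ := ∫ h, gauss s h * v (y + h)

theorem P_mono {s : ℝ} (hs : 0 < s) {v w : ℂ → ℝ} (hv : BM v) (hw : BM w) {y : ℂ}
    (h : ∀ z, v z ≤ w z) : P s v y ≤ P s w y :=
  integral_mono (int_gauss_mul hs (hv.comp_add' y)) (int_gauss_mul hs (hw.comp_add' y))
    fun z => mul_le_mul_of_nonneg_left (h _) (gauss_nonneg s z)

theorem P_nonneg {s : ℝ} {v : ℂ → ℝ} (h : ∀ z, 0 ≤ v z) (y : ℂ) : 0 ≤ P s v y :=
  integral_nonneg fun z => mul_nonneg (gauss_nonneg s z) (h _)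

theorem P_add {s : ℝ} (hs : 0 < s) {v w : ℂ → ℝ} (hv : BM v) (hw : BM w) (y : ℂ) :
    P s (fun z => v z + w z) y = P s v y + P s w y := by
  unfold P
  rw [← integral_add (int_gauss_mul hs (hv.comp_add' y)) (int_gauss_mul hs (hw.comp_add' y))]
  congr 1
  ext z
  ring

theorem P_sub {s : ℝ} (hs : 0 < s) {v w : ℂ → ℝ} (hv : BM v) (hw : BM w) (y : ℂ) :
    P s (fun z => v z - w z) y = P s v y - P s w y := by
  unfold P
  rw [← integral_sub (int_gauss_mul hs (hv.comp_add' y)) (int_gauss_mul hs (hw.comp_add' y))]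
  congr 1
  ext z
  ring

theorem P_const_mul (s : ℝ) (v : ℂ → ℝ) (c : ℝ) (y : ℂ) :
    P s (fun z => c * v z) y = c * P s v y := by
  unfold P
  rw [← integral_const_mul]
  congr 1
  ext z
  ring

theorem P_const {s : ℝ} (hs : 0 < s) (c : ℝ) (y : ℂ) : P s (fun _ => c) y = c := by
  unfold P
  rw [integral_mul_const, integral_gauss hs, one_mul]

theorem abs_P_le {s : ℝ} (hs : 0 < s) {v : ℂ → ℝ} (hv : BM v) {C : ℝ} (hC : ∀ z, |v z| ≤ C)
    (y : ℂ) : |P s v y| ≤ C := by
  have hc : BM (fun _ : ℂ => C) := ⟨measurable_const, |C|, fun _ => le_rfl⟩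
  have hc' : BM (fun _ : ℂ => -C) := ⟨measurable_const, |-C|, fun _ => le_rfl⟩
  rw [abs_le]
  constructor
  · have := P_mono hs hc' hv (y := y) fun z => (abs_le.1 (hC z)).1
    rwa [P_const hs] at this
  · have := P_mono hs hv hc (y := y) fun z => (abs_le.1 (hC z)).2
    rwa [P_const hs] at this

theorem P_comp_add (s : ℝ) (v : ℂ → ℝ) (c y : ℂ) :
    P s (fun z => v (z + c)) y = P s v (y + c) := by
  unfold P
  congr 1
  ext h
  change gauss s h * v (y + h + c) = _
  rw [show y + h + c = y + c + h by ring]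

theorem measurable_P (s : ℝ) {v : ℂ → ℝ} (hv : Measurable v) : Measurable (P s v) := by
  have h1 : StronglyMeasurable (Function.uncurry fun y h : ℂ => gauss s h * v (y + h)) := by
    refine Measurable.stronglyMeasurable ?_
    exact ((measurable_gauss s).comp measurable_snd).mul
      (hv.comp (measurable_fst.add measurable_snd))
  exact h1.integral_prod_right.measurable

theorem bm_P {s : ℝ} (hs : 0 < s) {v : ℂ → ℝ} (hv : BM v) : BM (P s v) := by
  obtain ⟨C, hC⟩ := hv.bdd
  exact ⟨measurable_P s hv.meas, C, fun z => abs_P_le hs hv hC z⟩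

/-- the basic Fubini statement -/
theorem int_prod_shift {s : ℝ} (hs : 0 < s) {F G : ℂ → ℝ} (hF : BI F) (hG : BM G) :
    Integrable (fun p : ℂ × ℂ => F p.1 * (gauss s p.2 * G (p.1 + p.2)))
      ((volume : Measure ℂ).prod volume) := by
  obtain ⟨C, hC⟩ := hG.bdd
  have h1 : Integrable (fun p : ℂ × ℂ => F p.1 * gauss s p.2)
      ((volume : Measure ℂ).prod volume) := hF.int.mul_prod (integrable_gauss hs)
  have h2 : Integrable (fun p : ℂ × ℂ => F p.1 * gauss s p.2 * G (p.1 + p.2))
      ((volume : Measure ℂ).prod volume) :=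
    int_mul_bdd h1 (hG.meas.comp (measurable_fst.add measurable_snd)).aestronglyMeasurable
      fun p => hC _
  refine h2.congr (Filter.Eventually.of_forall fun p => ?_)
  simp only [mul_assoc]

theorem integral_mul_P {s : ℝ} (hs : 0 < s) {F G : ℂ → ℝ} (hF : BI F) (hG : BM G) :
    ∫ y, F y * P s G y = ∫ h, gauss s h * ∫ y, F y * G (y + h) := by
  have h1 : ∀ y, F y * P s G y = ∫ h, F y * (gauss s h * G (y + h)) := fun y => by
    unfold P
    rw [integral_const_mul]
  have h2 : ∀ h, gauss s h * ∫ y, F y * G (y + h) = ∫ y, F y * (gauss s h * G (y + h)) :=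
    fun h => by
      rw [← integral_const_mul]
      congr 1
      ext y
      ring
  simp_rw [h1, h2]
  exact integral_integral_swap (int_prod_shift hs hF hG)

/-- self-adjointness -/
theorem integral_mul_P_comm {s : ℝ} (hs : 0 < s) {F G : ℂ → ℝ} (hF : BI F) (hG : BI G) :
    ∫ y, F y * P s G y = ∫ y, G y * P s F y := by
  rw [integral_mul_P hs hF hG.bm, integral_mul_P hs hG hF.bm]
  rw [← integral_neg_eq_self]
  congr 1
  ext h
  rw [gauss_neg]
  congr 1
  rw [← integral_add_right_eq_self _ h]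
  congr 1
  ext y
  rw [show y + h + -h = y by ring]
  ring

theorem integrable_P {s : ℝ} (hs : 0 < s) {F : ℂ → ℝ} (hF : BI F) :
    Integrable (P s F) ∧ ∫ y, P s F y = ∫ y, F y := by
  have hm : AEStronglyMeasurable (fun p : ℂ × ℂ => gauss s p.2 * F (p.1 + p.2))
      ((volume : Measure ℂ).prod volume) :=
    (((measurable_gauss s).comp measurable_snd).mul
      (hF.meas.comp (measurable_fst.add measurable_snd))).aestronglyMeasurable
  have h1 : Integrable (fun p : ℂ × ℂ => gauss s p.2 * F (p.1 + p.2))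
      ((volume : Measure ℂ).prod volume) := by
    rw [integrable_prod_iff' hm]
    refine ⟨Filter.Eventually.of_forall fun h =>
      (hF.int.comp_add_right h).const_mul (gauss s h), ?_⟩
    have h2 : (fun y : ℂ => ∫ x : ℂ, ‖gauss s y * F (x + y)‖) =
        fun y => gauss s y * ∫ x, |F x| := by
      ext y
      have h3 : (fun x : ℂ => ‖gauss s y * F (x + y)‖) = fun x => gauss s y * |F (x + y)| := by
        ext x
        rw [norm_mul, Real.norm_of_nonneg (gauss_nonneg s y), Real.norm_eq_abs]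
      rw [h3, integral_const_mul, integral_add_right_eq_self (fun x => |F x|) y]
    rw [h2]
    exact (integrable_gauss hs).mul_const _
  refine ⟨h1.integral_prod_left, ?_⟩
  unfold P
  rw [integral_integral_swap h1]
  have h4 : ∀ h : ℂ, ∫ y, gauss s h * F (y + h) = gauss s h * ∫ y, F y := fun h => by
    rw [integral_const_mul, integral_add_right_eq_self F h]
  simp_rw [h4]
  rw [integral_mul_const, integral_gauss hs, one_mul]

theorem bi_P {s : ℝ} (hs : 0 < s) {F : ℂ → ℝ} (hF : BI F) : BI (P s F) :=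
  ⟨(bm_P hs hF.bm).meas, (bm_P hs hF.bm).bdd, (integrable_P hs hF).1⟩

/-- semigroup property -/
theorem P_P {t r : ℝ} (ht : 0 < t) (hr : 0 < r) {v : ℂ → ℝ} (hv : BM v) (y : ℂ) :
    P t (P r v) y = P (Real.sqrt (t ^ 2 + r ^ 2)) v y := by
  obtain ⟨C, hC⟩ := hv.bdd
  have hT : 0 < t ^ 2 + r ^ 2 := by positivity
  have hT' : 0 < Real.sqrt (t ^ 2 + r ^ 2) := Real.sqrt_pos.2 hT
  set T := Real.sqrt (t ^ 2 + r ^ 2) with hTd
  set β : ℂ := ((t ^ 2 / (t ^ 2 + r ^ 2) : ℝ) : ℂ) with hβ
  set m : ℝ := t * r / T with hm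
  have hm0 : 0 < m := by positivity
  have h1 : ∀ x, gauss t x * P r v (y + x) = ∫ h, gauss t x * gauss r (h - x) * v (y + h) := by
    intro x
    unfold P
    rw [← integral_const_mul, ← integral_sub_right_eq_self _ x]
    congr 1
    ext h
    rw [show y + x + (h - x) = y + h by ring]
    ring
  have h2 : ∀ x h, gauss t x * gauss r (h - x) * v (y + h) =
      gauss T h * gauss m (x - β * h) * v (y + h) := by
    intro x h
    rw [gauss_mul_gauss ht hr x h]
  have hmeas : Measurable (fun p : ℂ × ℂ => gauss T p.2 * gauss m (p.1 - β * p.2) *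
      v (y + p.2)) :=
    (((measurable_gauss T).comp measurable_snd).mul ((measurable_gauss m).comp
      (measurable_fst.sub (measurable_snd.const_mul β)))).mul
      (hv.meas.comp (measurable_snd.const_add y))
  have hint : Integrable (fun p : ℂ × ℂ => gauss T p.2 * gauss m (p.1 - β * p.2) * v (y + p.2))
      ((volume : Measure ℂ).prod volume) := by
    rw [integrable_prod_iff' hmeas.aestronglyMeasurable]
    refine ⟨Filter.Eventually.of_forall fun h => ?_, ?_⟩
    · have := ((integrable_gauss hm0).comp_sub_right (β * h)).const_mul (gauss T h * v (y + h))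
      refine this.congr (Filter.Eventually.of_forall fun x => ?_)
      simp only
      ring
    · have h3 : (fun h : ℂ => ∫ x : ℂ, ‖gauss T h * gauss m (x - β * h) * v (y + h)‖) =
          fun h => gauss T h * |v (y + h)| := by
        ext h
        have h4 : (fun x : ℂ => ‖gauss T h * gauss m (x - β * h) * v (y + h)‖) =
            fun x => gauss T h * |v (y + h)| * gauss m (x - β * h) := by
          ext x
          rw [norm_mul, norm_mul, Real.norm_of_nonneg (gauss_nonneg _ _),
            Real.norm_of_nonneg (gauss_nonneg _ _), Real.norm_eq_abs]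
          ring
        rw [h4, integral_const_mul, integral_gauss_sub hm0, mul_one]
      rw [h3]
      have hv2 : BM (fun h => |v (y + h)|) :=
        ⟨(hv.meas.comp (measurable_id.const_add y)).abs, C, fun z => by
          rw [abs_abs]; exact hC _⟩
      exact int_gauss_mul hT' hv2
  have h5 : P t (P r v) y = ∫ x, ∫ h, gauss T h * gauss m (x - β * h) * v (y + h) := by
    change ∫ x, gauss t x * P r v (y + x) = _
    simp_rw [h1, h2]
  rw [h5, integral_integral_swap hint]
  unfold P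
  congr 1
  ext h
  have h6 : (fun x : ℂ => gauss T h * gauss m (x - β * h) * v (y + h)) =
      fun x => gauss T h * v (y + h) * gauss m (x - β * h) := by
    ext x
    ring
  rw [h6, integral_const_mul, integral_gauss_sub hm0, mul_one]

/-- `∫ G (P_t G) ≤ ∫ G²` -/
theorem integral_mul_P_self_le {t : ℝ} (ht : 0 < t) {G : ℂ → ℝ} (hG : BI G) :
    ∫ y, G y * P t G y ≤ ∫ y, G y ^ 2 := by
  have hsq : BI (fun y => G y ^ 2) := by
    have := hG.mul_bm hG.bm
    simpa only [sq] using this
  have hPG := bi_P ht hG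
  have h1 : ∀ y, P t G y ^ 2 ≤ P t (fun z => G z ^ 2) y := by
    intro y
    set c := P t G y with hc
    have hb : BM (fun z => (G z - c) ^ 2) := by
      have hcc : BM (fun _ : ℂ => c) := ⟨measurable_const, |c|, fun _ => le_rfl⟩
      have h2 := hG.bm.sub hcc
      obtain ⟨D, hD⟩ := h2.bdd
      refine ⟨h2.meas.pow_const 2, D ^ 2, fun z => ?_⟩
      rw [abs_pow]
      exact pow_le_pow_left₀ (abs_nonneg _) (hD z) 2
    have h0 : 0 ≤ P t (fun z => (G z - c) ^ 2) y := P_nonneg (fun z => sq_nonneg _) y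
    have h3 : P t (fun z => (G z - c) ^ 2) y =
        P t (fun z => G z ^ 2) y - 2 * c * P t G y + c ^ 2 := by
      have hcc : BM (fun _ : ℂ => c ^ 2) := ⟨measurable_const, |c ^ 2|, fun _ => le_rfl⟩
      have hcm : BM (fun z => 2 * c * G z) := by
        obtain ⟨D, hD⟩ := hG.bdd
        refine ⟨hG.meas.const_mul _, |2 * c| * D, fun z => ?_⟩
        rw [abs_mul]
        exact mul_le_mul_of_nonneg_left (hD z) (abs_nonneg _)
      have h4 : (fun z => (G z - c) ^ 2) = fun z => (G z ^ 2 - 2 * c * G z) + c ^ 2 := by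
        ext z
        ring
      rw [h4, P_add ht (hsq.bm.sub hcm) hcc, P_sub ht hsq.bm hcm, P_const_mul, P_const ht]
    rw [h3, ← hc] at h0
    nlinarith
  have h2 : ∀ y, G y * P t G y ≤ (1 / 2) * (G y ^ 2 + P t (fun z => G z ^ 2) y) := by
    intro y
    nlinarith [h1 y, sq_nonneg (G y - P t G y)]
  have h3 : ∫ y, G y * P t G y ≤ ∫ y, (1 / 2) * (G y ^ 2 + P t (fun z => G z ^ 2) y) :=
    integral_mono (hG.mul_bm hPG.bm).int ((hsq.int.add (bi_P ht hsq).int).const_mul _) h2
  rw [integral_const_mul, integral_add hsq.int (bi_P ht hsq).int, (integrable_P ht hsq).2] at h3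
  linarith

end Pool.Agent.H34.TriCL
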