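import Pool.Agent.H34.Tri.Form

/-!
# The Gram matrix of the dual functions
-/

set_option autoImplicit false

noncomputable section

open MeasureTheory Set Complex Metric
open scoped Real ENNReal NNReal

namespace Pool.Agent.H34.TriCL

open Pool.Agent.H24.Tri (gauss cis)

/-- a measurable function with values in `[0, 1]` and finite integral -/
structure GF (f : ℂ → ℝ) : Prop where
  bi : BI f
  nonneg : ∀ z, 0 ≤ f z
  le_one : ∀ z, f z ≤ 1

variable {f : ℂ → ℝ}

/-- `F_h(y) = f(y) f(y+h)` -/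
def Fh (f : ℂ → ℝ) (h y : ℂ) : ℝ := f y * f (y + h)

theorem Fh_nonneg (hf : GF f) (h y : ℂ) : 0 ≤ Fh f h y := mul_nonneg (hf.nonneg _) (hf.nonneg _)

theorem Fh_le (hf : GF f) (h y : ℂ) : Fh f h y ≤ f y :=
  mul_le_of_le_one_right (hf.nonneg _) (hf.le_one _)

theorem Fh_le_one (hf : GF f) (h y : ℂ) : Fh f h y ≤ 1 := (Fh_le hf h y).trans (hf.le_one y)

theorem abs_Fh_le_one (hf : GF f) (h y : ℂ) : |Fh f h y| ≤ 1 := by
  rw [abs_of_nonneg (Fh_nonneg hf h y)]
  exact Fh_le_one hf h y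

theorem bi_Fh (hf : GF f) (h : ℂ) : BI (Fh f h) := hf.bi.mul_bm (hf.bi.bm.comp_add h)

theorem measurable_Fh2 (hf : GF f) : Measurable (fun p : ℂ × ℂ => Fh f p.1 p.2) :=
  (hf.bi.meas.comp measurable_snd).mul (hf.bi.meas.comp (measurable_snd.add measurable_fst))

theorem integral_Fh_le (hf : GF f) (h : ℂ) : ∫ y, Fh f h y ≤ ∫ y, f y :=
  integral_mono (bi_Fh hf h).int hf.bi.int fun y => Fh_le hf h y

/-- the dual function -/
def T (ρ : ℂ) (f : ℂ → ℝ) (s : ℝ) (a z : ℂ) : ℝ :=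
  ∫ w, gauss s (w - a) * (f (z + w) * f (z + ρ * w))

theorem int_T (hf : GF f) (ρ : ℂ) {s : ℝ} (hs : 0 < s) (a z : ℂ) :
    Integrable (fun w => gauss s (w - a) * (f (z + w) * f (z + ρ * w))) := by
  refine int_mul_bdd (C := 1) ((integrable_gauss hs).comp_sub_right a) ?_ fun _ => ?_
  · exact ((hf.bi.meas.comp (measurable_id.const_add z)).mul (hf.bi.meas.comp
      ((measurable_id.const_mul ρ).const_add z))).aestronglyMeasurable
  · rw [abs_of_nonneg (mul_nonneg (hf.nonneg _) (hf.nonneg _))]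
    exact mul_le_one₀ (hf.le_one _) (hf.nonneg _) (hf.le_one _)

theorem T_nonneg (hf : GF f) (ρ : ℂ) (s : ℝ) (a z : ℂ) : 0 ≤ T ρ f s a z :=
  integral_nonneg fun w => mul_nonneg (gauss_nonneg _ _) (mul_nonneg (hf.nonneg _) (hf.nonneg _))

theorem T_le_P (hf : GF f) (ρ : ℂ) {s : ℝ} (hs : 0 < s) (a z : ℂ) :
    T ρ f s a z ≤ P s f (z + a) := by
  have e : P s f (z + a) = ∫ w, gauss s (w - a) * f (z + w) := by
    unfold P
    rw [← integral_sub_right_eq_self _ a]
    congr 1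
    ext w
    rw [show z + a + (w - a) = z + w by ring]
  rw [e]
  refine integral_mono (int_T hf ρ hs a z) ?_ fun w => ?_
  · refine int_mul_bdd (C := 1) ((integrable_gauss hs).comp_sub_right a)
      (hf.bi.meas.comp (measurable_id.const_add z)).aestronglyMeasurable fun w => ?_
    rw [abs_of_nonneg (hf.nonneg _)]
    exact hf.le_one _
  · exact mul_le_mul_of_nonneg_left (mul_le_of_le_one_right (hf.nonneg _) (hf.le_one _))
      (gauss_nonneg _ _)

theorem measurable_T (hf : GF f) (ρ : ℂ) (s : ℝ) (a : ℂ) : Measurable (T ρ f s a) := by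
  have h1 : StronglyMeasurable (Function.uncurry fun z w : ℂ =>
      gauss s (w - a) * (f (z + w) * f (z + ρ * w))) := by
    refine Measurable.stronglyMeasurable ?_
    exact ((measurable_gauss s).comp (measurable_snd.sub_const a)).mul
      ((hf.bi.meas.comp (measurable_fst.add measurable_snd)).mul
      (hf.bi.meas.comp (measurable_fst.add (measurable_snd.const_mul ρ))))
  exact h1.integral_prod_right.measurable

theorem bi_T (hf : GF f) (ρ : ℂ) {s : ℝ} (hs : 0 < s) (a : ℂ) : BI (T ρ f s a) := by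
  have h1 : ∀ z, |T ρ f s a z| ≤ P s f (z + a) := fun z => by
    rw [abs_of_nonneg (T_nonneg hf ρ s a z)]
    exact T_le_P hf ρ hs a z
  refine ⟨measurable_T hf ρ s a, ?_, ?_⟩
  · obtain ⟨C, hC⟩ := (bm_P hs hf.bi.bm).bdd
    exact ⟨C, fun z => (h1 z).trans ((le_abs_self _).trans (hC _))⟩
  · refine (((integrable_P hs hf.bi).1).comp_add_right a).mono'
      (measurable_T hf ρ s a).aestronglyMeasurable (Filter.Eventually.of_forall fun z => ?_)
    rw [Real.norm_eq_abs]
    exact h1 z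

/-- the kernel of the Gram matrix -/
def KG (ρ : ℂ) (f : ℂ → ℝ) (s : ℝ) (a b h : ℂ) : ℝ :=
  ∫ y, Fh f h y * P (‖ρ - 1‖ * (s / Real.sqrt 2)) (Fh f (ρ * h))
    (y + (ρ - 1) * ((a + b - h) / 2))

theorem measurable_pairing (hf : GF f) (l : ℝ) (g : ℂ → ℂ) (hg : Measurable g) (ρ : ℂ) :
    Measurable (fun h => ∫ y, Fh f h y * P l (Fh f (ρ * h)) (y + g h)) := by
  have h1 : StronglyMeasurable (fun p : (ℂ × ℂ) × ℂ =>
      gauss l p.2 * Fh f (ρ * p.1.1) (p.1.2 + g p.1.1 + p.2)) := by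
    refine Measurable.stronglyMeasurable ?_
    have hm1 : Measurable (fun p : (ℂ × ℂ) × ℂ => (ρ * p.1.1, p.1.2 + g p.1.1 + p.2)) := by
      have : Measurable (fun p : (ℂ × ℂ) × ℂ => p.1.1) := measurable_fst.comp measurable_fst
      exact (this.const_mul ρ).prodMk (((measurable_snd.comp measurable_fst).add
        (hg.comp this)).add measurable_snd)
    exact ((measurable_gauss l).comp measurable_snd).mul ((measurable_Fh2 hf).comp hm1)
  have h2 : StronglyMeasurable (fun p : ℂ × ℂ => P l (Fh f (ρ * p.1)) (p.2 + g p.1)) :=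
    h1.integral_prod_right'
  have h3 : StronglyMeasurable (fun p : ℂ × ℂ => Fh f p.1 p.2 * P l (Fh f (ρ * p.1))
      (p.2 + g p.1)) := (measurable_Fh2 hf).stronglyMeasurable.mul h2
  exact h3.integral_prod_right'.measurable

theorem int_pairing (hf : GF f) {l : ℝ} (hl : 0 < l) (h h' c : ℂ) :
    Integrable (fun y => Fh f h y * P l (Fh f h') (y + c)) :=
  ((bi_Fh hf h).mul_bm ((bm_P hl (bi_Fh hf h').bm).comp_add c)).int

theorem pairing_nonneg (hf : GF f) {l : ℝ} (h h' c : ℂ) :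
    0 ≤ ∫ y, Fh f h y * P l (Fh f h') (y + c) :=
  integral_nonneg fun y => mul_nonneg (Fh_nonneg hf h y) (P_nonneg (fun z => Fh_nonneg hf h' z) _)

theorem pairing_le (hf : GF f) {l : ℝ} (hl : 0 < l) (h h' c : ℂ) :
    ∫ y, Fh f h y * P l (Fh f h') (y + c) ≤ ∫ y, f y := by
  refine integral_mono (int_pairing hf hl h h' c) hf.bi.int fun y => ?_
  have h1 := abs_P_le hl (bi_Fh hf h').bm (abs_Fh_le_one hf h') (y + c)
  have h2 := (abs_le.1 h1).2
  exact (mul_le_of_le_one_right (Fh_nonneg hf h y) h2).trans (Fh_le hf h y)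

/-- three fold Tonelli -/
theorem lintegral_perm {Ψ : ℂ → ℂ → ℂ → ℝ≥0∞}
    (hΨ : Measurable (fun p : ℂ × ℂ × ℂ => Ψ p.1 p.2.1 p.2.2)) :
    ∫⁻ w, ∫⁻ y, ∫⁻ h, Ψ h y w = ∫⁻ h, ∫⁻ y, ∫⁻ w, Ψ h y w := by
  have h1 : ∀ w, ∫⁻ y, ∫⁻ h, Ψ h y w = ∫⁻ h, ∫⁻ y, Ψ h y w := by
    intro w
    refine lintegral_lintegral_swap ?_
    exact (hΨ.comp (measurable_snd.prodMk (measurable_fst.prodMk measurable_const))).aemeasurable
  simp_rw [h1]
  rw [lintegral_lintegral_swap]
  · congr 1
    ext h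
    refine lintegral_lintegral_swap ?_
    exact (hΨ.comp (measurable_const.prodMk (measurable_snd.prodMk measurable_fst))).aemeasurable
  · have h2 : Measurable (fun p : (ℂ × ℂ) × ℂ => Ψ p.1.2 p.2 p.1.1) :=
      hΨ.comp ((measurable_snd.comp measurable_fst).prodMk
        (measurable_snd.prodMk (measurable_fst.comp measurable_fst)))
    exact h2.lintegral_prod_right'.aemeasurable

theorem lintegral_swap12 {Φ : ℂ → ℂ → ℂ → ℝ≥0∞}
    (hΦ : Measurable (fun p : (ℂ × ℂ) × ℂ => Φ p.1.1 p.1.2 p.2)) :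
    ∫⁻ z, ∫⁻ w, ∫⁻ h, Φ z w h = ∫⁻ w, ∫⁻ z, ∫⁻ h, Φ z w h := by
  have h1 : Measurable (fun p : ℂ × ℂ => ∫⁻ h, Φ p.1 p.2 h) := hΦ.lintegral_prod_right'
  exact lintegral_lintegral_swap (f := fun z w => ∫⁻ h, Φ z w h) h1.aemeasurable

theorem gram (hf : GF f) {ρ : ℂ} (hρ : ρ ≠ 1) {s : ℝ} (hs : 0 < s) (a b : ℂ) :
    ∫ z, T ρ f s a z * T ρ f s b z = ∫ h, gauss (Real.sqrt 2 * s) (b - a - h) *
      KG ρ f s a b h := by
  have hρ' : ρ - 1 ≠ 0 := sub_ne_zero.2 hρ
  have hn : 0 < ‖ρ - 1‖ := norm_pos_iff.2 hρ'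
  have hs2 : 0 < s / Real.sqrt 2 := by positivity
  have h2s : 0 < Real.sqrt 2 * s := by positivity
  have hl : 0 < ‖ρ - 1‖ * (s / Real.sqrt 2) := by positivity
  set l := ‖ρ - 1‖ * (s / Real.sqrt 2) with hld
  -- the integrand in three variables
  obtain ⟨ψ, hψ⟩ : ∃ ψ : ℂ → ℂ → ℂ → ℝ, ∀ h y w, ψ h y w = gauss s (w - a) *
    gauss s (w + h - b) * (Fh f h y * Fh f (ρ * h) (y + (ρ - 1) * w)) := ⟨_, fun _ _ _ => rfl⟩
  have hψ0 : ∀ h y w, 0 ≤ ψ h y w := fun h y w => by
    rw [hψ]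
    exact mul_nonneg (mul_nonneg (gauss_nonneg _ _) (gauss_nonneg _ _))
      (mul_nonneg (Fh_nonneg hf _ _) (Fh_nonneg hf _ _))
  have hψm : Measurable (fun p : ℂ × ℂ × ℂ => ENNReal.ofReal (ψ p.1 p.2.1 p.2.2)) := by
    simp only [hψ]
    refine ENNReal.measurable_ofReal.comp ?_
    have m1 : Measurable (fun p : ℂ × ℂ × ℂ => p.1) := measurable_fst
    have m2 : Measurable (fun p : ℂ × ℂ × ℂ => p.2.1) := measurable_fst.comp measurable_snd
    have m3 : Measurable (fun p : ℂ × ℂ × ℂ => p.2.2) := measurable_snd.comp measurable_snd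
    exact (((measurable_gauss s).comp (m3.sub_const a)).mul
      ((measurable_gauss s).comp ((m3.add m1).sub_const b))).mul
      (((measurable_Fh2 hf).comp (m1.prodMk m2)).mul
      ((measurable_Fh2 hf).comp ((m1.const_mul ρ).prodMk (m2.add (m3.const_mul (ρ - 1))))))
  -- left-hand side
  have hT : ∀ c z, ENNReal.ofReal (T ρ f s c z) =
      ∫⁻ w, ENNReal.ofReal (gauss s (w - c) * (f (z + w) * f (z + ρ * w))) := fun c z =>
    ofReal_integral_eq_lintegral_ofReal (int_T hf ρ hs c z) (Filter.Eventually.of_forall fun w =>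
      mul_nonneg (gauss_nonneg _ _) (mul_nonneg (hf.nonneg _) (hf.nonneg _)))
  have hAm : ∀ c z, Measurable (fun w =>
      ENNReal.ofReal (gauss s (w - c) * (f (z + w) * f (z + ρ * w)))) := fun c z =>
    ENNReal.measurable_ofReal.comp (((measurable_gauss s).comp (measurable_id.sub_const c)).mul
      ((hf.bi.meas.comp (measurable_id.const_add z)).mul (hf.bi.meas.comp
      ((measurable_id.const_mul ρ).const_add z))))
  have hAB : ∀ z w h, ENNReal.ofReal (gauss s (w - a) * (f (z + w) * f (z + ρ * w))) *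
      ENNReal.ofReal (gauss s (w + h - b) * (f (z + (w + h)) * f (z + ρ * (w + h)))) =
      ENNReal.ofReal (ψ h (z + w) w) := by
    intro z w h
    rw [← ENNReal.ofReal_mul (mul_nonneg (gauss_nonneg _ _)
      (mul_nonneg (hf.nonneg _) (hf.nonneg _)))]
    congr 1
    rw [hψ]
    simp only [Fh]
    rw [show z + w + (ρ - 1) * w = z + ρ * w by ring, show z + ρ * w + ρ * h = z + ρ * (w + h) by
      ring, show z + w + h = z + (w + h) by ring]
    ring
  have hL : ∫⁻ z, ENNReal.ofReal (T ρ f s a z * T ρ f s b z) =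
      ∫⁻ h, ∫⁻ y, ∫⁻ w, ENNReal.ofReal (ψ h y w) := by
    have h1 : ∀ z, ENNReal.ofReal (T ρ f s a z * T ρ f s b z) =
        ∫⁻ w, ∫⁻ h, ENNReal.ofReal (ψ h (z + w) w) := by
      intro z
      rw [ENNReal.ofReal_mul (T_nonneg hf ρ s a z), hT a z, hT b z,
        ← lintegral_mul_const _ (hAm a z)]
      congr 1
      ext w
      have hBm : Measurable (fun h => ENNReal.ofReal (gauss s (w + h - b) *
          (f (z + (w + h)) * f (z + ρ * (w + h))))) := (hAm b z).comp (measurable_id.const_add w)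
      rw [← lintegral_add_left_eq_self _ w, ← lintegral_const_mul _ hBm]
      congr 1
      ext h
      exact hAB z w h
    have h3 : Measurable (fun p : (ℂ × ℂ) × ℂ => ENNReal.ofReal (ψ p.2 (p.1.1 + p.1.2) p.1.2)) :=
      hψm.comp (measurable_snd.prodMk (((measurable_fst.comp measurable_fst).add
        (measurable_snd.comp measurable_fst)).prodMk (measurable_snd.comp measurable_fst)))
    have h4 := lintegral_swap12 (Φ := fun z w h => ENNReal.ofReal (ψ h (z + w) w)) h3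
    have h2 : ∀ w, ∫⁻ z, ∫⁻ h, ENNReal.ofReal (ψ h (z + w) w) =
        ∫⁻ y, ∫⁻ h, ENNReal.ofReal (ψ h y w) := fun w =>
      lintegral_add_right_eq_self (fun y => ∫⁻ h, ENNReal.ofReal (ψ h y w)) w
    simp_rw [h1]
    rw [h4]
    simp_rw [h2]
    exact lintegral_perm hψm
  -- the inner integral
  have hw : ∀ h y, ∫⁻ w, ENNReal.ofReal (ψ h y w) = ENNReal.ofReal
      (gauss (Real.sqrt 2 * s) (b - a - h) * (Fh f h y * P l (Fh f (ρ * h))
        (y + (ρ - 1) * ((a + b - h) / 2)))) := by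
    intro h y
    set G := gauss (Real.sqrt 2 * s) (b - a - h) with hG
    set w0 := (a + b - h) / 2 with hw0
    have e1 : ∀ w, ψ h y w = (G * Fh f h y) * (gauss (s / Real.sqrt 2) (w - w0) *
        Fh f (ρ * h) (y + (ρ - 1) * w)) := by
      intro w
      rw [hψ, gauss_mul_gauss' hs]
      ring
    have hi : Integrable (fun w => gauss (s / Real.sqrt 2) (w - w0) *
        Fh f (ρ * h) (y + (ρ - 1) * w)) := by
      refine int_mul_bdd (C := 1) ((integrable_gauss hs2).comp_sub_right w0) ?_ fun w =>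
        abs_Fh_le_one hf _ _
      exact ((bi_Fh hf (ρ * h)).meas.comp
        ((measurable_id.const_mul (ρ - 1)).const_add y)).aestronglyMeasurable
    have hi2 : Integrable (ψ h y) := by
      refine (hi.const_mul (G * Fh f h y)).congr (Filter.Eventually.of_forall fun w => ?_)
      exact (e1 w).symm
    rw [← ofReal_integral_eq_lintegral_ofReal hi2 (Filter.Eventually.of_forall (hψ0 h y))]
    congr 1
    simp_rw [e1]
    rw [integral_const_mul, mul_assoc]
    congr 2
    rw [← integral_add_right_eq_self _ w0, hld, ← P_comp_mul hρ' hs2]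
    congr 1
    ext w
    rw [add_sub_cancel_right, show y + (ρ - 1) * (w + w0) = y + (ρ - 1) * w0 + (ρ - 1) * w by ring]
  have hy : ∀ h, ∫⁻ y, ∫⁻ w, ENNReal.ofReal (ψ h y w) = ENNReal.ofReal
      (gauss (Real.sqrt 2 * s) (b - a - h) * KG ρ f s a b h) := by
    intro h
    simp_rw [hw]
    rw [← ofReal_integral_eq_lintegral_ofReal ((int_pairing hf hl _ _ _).const_mul _)
      (Filter.Eventually.of_forall fun y => mul_nonneg (gauss_nonneg _ _)
        (mul_nonneg (Fh_nonneg hf _ _) (P_nonneg (fun z => Fh_nonneg hf _ z) _)))]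
    rw [integral_const_mul]
    rfl
  have hKm : Measurable (KG ρ f s a b) :=
    measurable_pairing hf l (fun h => (ρ - 1) * ((a + b - h) / 2))
      ((((measurable_const.sub measurable_id)).div_const 2).const_mul (ρ - 1)) ρ
  have hK0 : ∀ h, 0 ≤ KG ρ f s a b h := fun h => pairing_nonneg hf _ _ _
  have hK1 : ∀ h, |KG ρ f s a b h| ≤ ∫ y, f y := fun h => by
    rw [abs_of_nonneg (hK0 h)]
    exact pairing_le hf hl _ _ _
  have hi3 : Integrable (fun h => gauss (Real.sqrt 2 * s) (b - a - h) * KG ρ f s a b h) :=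
    int_mul_bdd ((integrable_gauss h2s).comp_sub_left (b - a)) hKm.aestronglyMeasurable hK1
  have hi4 : Integrable (fun z => T ρ f s a z * T ρ f s b z) :=
    ((bi_T hf ρ hs a).mul_bm (bi_T hf ρ hs b).bm).int
  have hfin : ENNReal.ofReal (∫ z, T ρ f s a z * T ρ f s b z) =
      ENNReal.ofReal (∫ h, gauss (Real.sqrt 2 * s) (b - a - h) * KG ρ f s a b h) := by
    rw [ofReal_integral_eq_lintegral_ofReal hi4 (Filter.Eventually.of_forall fun z =>
      mul_nonneg (T_nonneg hf _ _ _ _) (T_nonneg hf _ _ _ _)),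
      ofReal_integral_eq_lintegral_ofReal hi3 (Filter.Eventually.of_forall fun h =>
      mul_nonneg (gauss_nonneg _ _) (hK0 h)), hL]
    simp_rw [hy]
  exact (ENNReal.ofReal_eq_ofReal_iff
    (integral_nonneg fun z => mul_nonneg (T_nonneg hf _ _ _ _) (T_nonneg hf _ _ _ _))
    (integral_nonneg fun h => mul_nonneg (gauss_nonneg _ _) (hK0 h))).1 hfin

end Pool.Agent.H34.TriCL
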