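import Pool.Agent.H34.Tri.Approx

/-!
# One scale
-/

set_option autoImplicit false

noncomputable section

open MeasureTheory Set Complex Metric
open scoped Real ENNReal NNReal

namespace Pool.Agent.H34.TriCL

open Pool.Agent.H24.Tri (gauss cis)

variable {f : ℂ → ℝ}

/-- the monotone functional `U(c, l)` -/
def U (f : ℂ → ℝ) (c l : ℝ) : ℝ := P c (eF f l) 0

/-- the averaged energy drop -/
def E (ρ : ℂ) (f : ℂ → ℝ) (c l L : ℝ) : ℝ := P c (qF ρ f l L) 0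

/-- the second monotone functional `V_L(c)` -/
def V (ρ : ℂ) (f : ℂ → ℝ) (L c : ℝ) : ℝ := P c (vF ρ f L) 0

theorem U_comm (hf : GF f) {c l : ℝ} (hc : 0 < c) (hl : 0 < l) : U f c l = U f l c := by
  obtain ⟨u, hu⟩ : ∃ u : ℂ × ℂ → ℝ, ∀ p, u p =
    ∫ y, f y * f (y + p.1) * (f (y + p.2) * f (y + p.2 + p.1)) := ⟨_, fun _ => rfl⟩
  have hum : StronglyMeasurable u := by
    have h1 : StronglyMeasurable (fun p : (ℂ × ℂ) × ℂ => f p.2 * f (p.2 + p.1.1) *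
        (f (p.2 + p.1.2) * f (p.2 + p.1.2 + p.1.1))) := by
      refine Measurable.stronglyMeasurable ?_
      have m1 : Measurable (fun p : (ℂ × ℂ) × ℂ => p.1.1) := measurable_fst.comp measurable_fst
      have m2 : Measurable (fun p : (ℂ × ℂ) × ℂ => p.1.2) := measurable_snd.comp measurable_fst
      have m3 : Measurable (fun p : (ℂ × ℂ) × ℂ => p.2) := measurable_snd
      exact ((hf.bi.meas.comp m3).mul (hf.bi.meas.comp (m3.add m1))).mul
        ((hf.bi.meas.comp (m3.add m2)).mul (hf.bi.meas.comp ((m3.add m2).add m1)))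
    have h2 : u = fun p => ∫ y, f y * f (y + p.1) * (f (y + p.2) * f (y + p.2 + p.1)) :=
      funext hu
    rw [h2]
    exact h1.integral_prod_right'
  have hint : ∀ p : ℂ × ℂ,
      Integrable (fun y => f y * f (y + p.1) * (f (y + p.2) * f (y + p.2 + p.1))) := fun p =>
    ((bi_Fh hf p.1).mul_bm ((bi_Fh hf p.1).bm.comp_add p.2)).int
  have hu0 : ∀ p, |u p| ≤ ∫ y, f y := by
    intro p
    rw [hu, abs_of_nonneg (integral_nonneg fun y => mul_nonneg (Fh_nonneg hf p.1 y)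
      (Fh_nonneg hf p.1 (y + p.2)))]
    refine integral_mono (hint p) hf.bi.int fun y => ?_
    exact (mul_le_of_le_one_right (Fh_nonneg hf p.1 y) (Fh_le_one hf p.1 (y + p.2))).trans
      (Fh_le hf p.1 y)
  have hsymm : ∀ p : ℂ × ℂ, u p = u (p.2, p.1) := by
    intro p
    rw [hu, hu]
    congr 1
    ext y
    simp only
    rw [show y + p.2 + p.1 = y + p.1 + p.2 by ring]
    ring
  have he : ∀ l : ℝ, 0 < l → ∀ h, eF f l h = ∫ k, gauss l k * u (h, k) := by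
    intro l hl h
    unfold eF Kf
    rw [integral_mul_P hl (bi_Fh hf h) (bi_Fh hf h).bm]
    congr 1
    ext k
    rw [hu]
    rfl
  have hU : ∀ c l : ℝ, 0 < l → U f c l = ∫ h, ∫ k, gauss c h * (gauss l k * u (h, k)) := by
    intro c l hl
    unfold U P
    congr 1
    ext h
    rw [zero_add, he l hl, integral_const_mul]
  rw [hU c l hl, hU l c hc, integral_integral_swap]
  · congr 1
    ext h
    congr 1
    ext k
    rw [hsymm (k, h)]
    ring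
  · have h1 : Integrable (fun p : ℂ × ℂ => gauss c p.1 * gauss l p.2)
        ((volume : Measure ℂ).prod volume) := (integrable_gauss hc).mul_prod (integrable_gauss hl)
    have h2 := int_mul_bdd h1 hum.aestronglyMeasurable hu0
    refine h2.congr (Filter.Eventually.of_forall fun p => ?_)
    change gauss c p.1 * gauss l p.2 * u p = gauss c p.1 * (gauss l p.2 * u (p.1, p.2))
    rw [mul_assoc]

theorem U_nonneg (hf : GF f) (c l : ℝ) : 0 ≤ U f c l := P_nonneg (fun z => eF_nonneg hf l z) 0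

theorem U_le (hf : GF f) {c l : ℝ} (hc : 0 < c) (hl : 0 < l) : U f c l ≤ ∫ y, f y := by
  have h1 := abs_P_le hc (bm_eF hf hl) (C := ∫ y, f y) (fun z => by
    rw [abs_of_nonneg (eF_nonneg hf l z)]
    exact eF_le hf hl z) 0
  exact (le_abs_self _).trans h1

theorem U_anti_right (hf : GF f) {c l L : ℝ} (hc : 0 < c) (hl : 0 < l) (hL : l ≤ L) :
    U f c L ≤ U f c l :=
  P_mono hc (bm_eF hf (hl.trans_le hL)) (bm_eF hf hl) fun z => eF_anti hf hl hL z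

theorem U_anti (hf : GF f) {c c' l L : ℝ} (hc : 0 < c) (hc' : c ≤ c') (hl : 0 < l)
    (hL : l ≤ L) : U f c' L ≤ U f c l := by
  have hc0 : 0 < c' := hc.trans_le hc'
  refine (U_anti_right hf hc0 hl hL).trans ?_
  rw [U_comm hf hc0 hl, U_comm hf hc hl]
  exact U_anti_right hf hl hc hc'

theorem V_nonneg (hf : GF f) (ρ : ℂ) (L c : ℝ) : 0 ≤ V ρ f L c :=
  P_nonneg (fun z => vF_nonneg hf ρ L z) 0

theorem V_le (hf : GF f) (ρ : ℂ) {L c : ℝ} (hL : 0 < L) (hc : 0 < c) :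
    V ρ f L c ≤ ∫ y, f y := by
  have h1 := abs_P_le hc (bm_vF hf ρ hL) (C := ∫ y, f y) (fun z => by
    rw [abs_of_nonneg (vF_nonneg hf ρ L z)]
    exact vF_le hf ρ hL z) 0
  exact (le_abs_self _).trans h1

theorem E_nonneg (hf : GF f) (ρ : ℂ) (c : ℝ) {l L : ℝ} (hl : 0 < l) (hL : l ≤ L) :
    0 ≤ E ρ f c l L := P_nonneg (fun z => qF_nonneg hf ρ hl hL z) 0

theorem E_eq (hf : GF f) {ρ : ℂ} (hρ : ρ ≠ 0) {c l L : ℝ} (hc : 0 < c) (hl : 0 < l)
    (hL : 0 < L) : E ρ f c l L =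
      (1 / 2) * ((U f c l - U f c L) + (U f (‖ρ‖ * c) l - U f (‖ρ‖ * c) L)) := by
  have h1 : ∀ m : ℝ, P c (fun h => eF f m (ρ * h)) 0 = U f (‖ρ‖ * c) m := by
    intro m
    unfold U
    rw [← P_comp_mul hρ hc]
    unfold P
    congr 1
    ext w
    rw [zero_add, zero_add]
  unfold E
  have h2 : qF ρ f l L = fun h => (1 / 2) * ((eF f l h - eF f L h) +
      (eF f l (ρ * h) - eF f L (ρ * h))) := rfl
  have b1 := bm_eF hf hl
  have b2 := bm_eF hf hL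
  rw [h2, P_const_mul, P_add hc (b1.sub b2) ((bm_comp_mul b1 ρ).sub (bm_comp_mul b2 ρ)),
    P_sub hc b1 b2, P_sub hc (bm_comp_mul b1 ρ) (bm_comp_mul b2 ρ), h1, h1]
  rfl

/-- (F1): changing the smoothing scale -/
theorem abs_V_sub_le (hf : GF f) (ρ : ℂ) {c l L : ℝ} (hc : 0 < c) (hl : 0 < l) (hL : l ≤ L) :
    |V ρ f l c - V ρ f L c| ≤ E ρ f c l L := by
  have hL0 : 0 < L := hl.trans_le hL
  have b1 := bm_vF hf ρ hl
  have b2 := bm_vF hf ρ hL0
  have b3 := bm_qF hf ρ hl hL0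
  have h1 := fun z => abs_le.1 (abs_vF_sub_le hf ρ hl hL z)
  have h2 : P c (vF ρ f l) 0 ≤ P c (fun z => vF ρ f L z + qF ρ f l L z) 0 :=
    P_mono hc b1 (b2.add b3) fun z => by linarith [(h1 z).2]
  have h3 : P c (vF ρ f L) 0 ≤ P c (fun z => vF ρ f l z + qF ρ f l L z) 0 :=
    P_mono hc b2 (b1.add b3) fun z => by linarith [(h1 z).1]
  rw [P_add hc b2 b3] at h2
  rw [P_add hc b1 b3] at h3
  unfold V E
  rw [abs_le]
  constructor <;> linarith

/-- the bound for the distance of two dual functions -/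
def Rr (ρ : ℂ) (f : ℂ → ℝ) (s L : ℝ) (a x : ℂ) : ℝ :=
  2 * P (Real.sqrt 2 * s) (vF ρ f L) 0 - 2 * P (Real.sqrt 2 * s) (vF ρ f L) (-a + x) +
    2 * P (Real.sqrt 2 * s) (qF ρ f (‖ρ - 1‖ * (s / Real.sqrt 2)) L) 0 +
    2 * P (Real.sqrt 2 * s) (qF ρ f (‖ρ - 1‖ * (s / Real.sqrt 2)) L) (-a + x) +
    (∫ y, f y) * (20 * ‖ρ - 1‖ / L) * (3 * ‖a‖ + ‖x‖ + 4 * s)

theorem dist_le (hf : GF f) {ρ : ℂ} (hρ : ρ ≠ 1) {s L : ℝ} (hs : 0 < s)
    (hL : ‖ρ - 1‖ * (s / Real.sqrt 2) ≤ L) (a x : ℂ) :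
    ∫ z, (T ρ f s a z - T ρ f s x z) ^ 2 ≤ Rr ρ f s L a x := by
  have hTa := bi_T hf ρ hs a
  have hTx := bi_T hf ρ hs x
  have i1 : Integrable (fun z => T ρ f s a z * T ρ f s a z) := (hTa.mul_bm hTa.bm).int
  have i2 : Integrable (fun z => T ρ f s a z * T ρ f s x z) := (hTa.mul_bm hTx.bm).int
  have i3 : Integrable (fun z => T ρ f s x z * T ρ f s x z) := (hTx.mul_bm hTx.bm).int
  have e1 : ∫ z, (T ρ f s a z - T ρ f s x z) ^ 2 =
      (∫ z, T ρ f s a z * T ρ f s a z) - 2 * (∫ z, T ρ f s a z * T ρ f s x z) +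
        ∫ z, T ρ f s x z * T ρ f s x z := by
    have e2 : (fun z => (T ρ f s a z - T ρ f s x z) ^ 2) = fun z =>
        (T ρ f s a z * T ρ f s a z - 2 * (T ρ f s a z * T ρ f s x z)) +
          T ρ f s x z * T ρ f s x z := by
      ext z
      ring
    have i4 : Integrable (fun z => T ρ f s a z * T ρ f s a z -
        2 * (T ρ f s a z * T ρ f s x z)) := i1.sub (i2.const_mul 2)
    rw [e2, integral_add i4 i3, integral_sub i1 (i2.const_mul 2), integral_const_mul]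
  have g1 := abs_le.1 (gram_approx hf hρ hs hL a a)
  have g2 := abs_le.1 (gram_approx hf hρ hs hL a x)
  have g3 := abs_le.1 (gram_approx hf hρ hs hL x x)
  rw [sub_self] at g1 g3
  rw [show x - a = -a + x by ring] at g2
  rw [e1]
  unfold Rr
  have e3 : (∫ y, f y) * (20 * ‖ρ - 1‖ * (‖a‖ + s) / L) =
      (∫ y, f y) * (20 * ‖ρ - 1‖ / L) * (‖a‖ + s) := by ring
  have e4 : (∫ y, f y) * (20 * ‖ρ - 1‖ * (‖x‖ + s) / L) =
      (∫ y, f y) * (20 * ‖ρ - 1‖ / L) * (‖x‖ + s) := by ring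
  rw [e3] at g1 g2
  rw [e4] at g3
  linarith [g1.2, g2.1, g3.2]

theorem avg_R (hf : GF f) {ρ : ℂ} (hρ : ρ ≠ 1) {s L t : ℝ} (hs : 0 < s)
    (hL : ‖ρ - 1‖ * (s / Real.sqrt 2) ≤ L) (ht : 0 < t) (a : ℂ) :
    Integrable (fun x => gauss t x * Rr ρ f s L a x) ∧ ∫ x, gauss t x * Rr ρ f s L a x ≤
      2 * V ρ f L (Real.sqrt 2 * s) -
        2 * P (Real.sqrt (t ^ 2 + (Real.sqrt 2 * s) ^ 2)) (vF ρ f L) (-a) +
      2 * E ρ f (Real.sqrt 2 * s) (‖ρ - 1‖ * (s / Real.sqrt 2)) L +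
      2 * P (Real.sqrt (t ^ 2 + (Real.sqrt 2 * s) ^ 2))
        (qF ρ f (‖ρ - 1‖ * (s / Real.sqrt 2)) L) (-a) +
      (∫ y, f y) * (20 * ‖ρ - 1‖ / L) * (3 * ‖a‖ + t + 4 * s) := by
  have hρ' : ρ - 1 ≠ 0 := sub_ne_zero.2 hρ
  have hn : 0 < ‖ρ - 1‖ := norm_pos_iff.2 hρ'
  have hl : 0 < ‖ρ - 1‖ * (s / Real.sqrt 2) := by positivity
  have hc : 0 < Real.sqrt 2 * s := by positivity
  have hL0 : 0 < L := hl.trans_le hL
  have hM0 : 0 ≤ ∫ y, f y := integral_nonneg hf.nonneg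
  have bv := bm_vF hf ρ hL0
  have bq := bm_qF hf ρ hl hL0
  rw [← P_P ht hc bv, ← P_P ht hc bq]
  set v := vF ρ f L with hv
  set q := qF ρ f (‖ρ - 1‖ * (s / Real.sqrt 2)) L with hq
  set c := Real.sqrt 2 * s with hcd
  set κ := (∫ y, f y) * (20 * ‖ρ - 1‖ / L) with hκ
  have hκ0 : 0 ≤ κ := by positivity
  have j1 : Integrable (fun x => gauss t x * P c v (-a + x)) :=
    int_gauss_mul ht ((bm_P hc bv).comp_add' (-a))
  have j2 : Integrable (fun x => gauss t x * P c q (-a + x)) :=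
    int_gauss_mul ht ((bm_P hc bq).comp_add' (-a))
  have j3 : Integrable (fun x : ℂ => ‖x‖ * gauss t x) := int_norm_gauss ht
  have j0 := integrable_gauss ht
  set C0 : ℝ := 2 * P c v 0 + 2 * P c q 0 + κ * (3 * ‖a‖ + 4 * s) with hC0
  have e1 : (fun x => gauss t x * Rr ρ f s L a x) = fun x => ((C0 * gauss t x -
      2 * (gauss t x * P c v (-a + x))) + 2 * (gauss t x * P c q (-a + x))) +
        κ * (‖x‖ * gauss t x) := by
    ext x
    simp only [Rr, hC0, ← hv, ← hq, ← hcd, ← hκ]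
    ring
  have k1 : Integrable (fun x => C0 * gauss t x - 2 * (gauss t x * P c v (-a + x))) :=
    (j0.const_mul C0).sub (j1.const_mul 2)
  have k2 : Integrable (fun x => (C0 * gauss t x - 2 * (gauss t x * P c v (-a + x))) +
      2 * (gauss t x * P c q (-a + x))) := k1.add (j2.const_mul 2)
  rw [e1]
  refine ⟨k2.add (j3.const_mul κ), ?_⟩
  rw [integral_add k2 (j3.const_mul κ), integral_add k1 (j2.const_mul 2),
    integral_sub (j0.const_mul C0) (j1.const_mul 2), integral_const_mul, integral_const_mul,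
    integral_const_mul, integral_const_mul, integral_gauss ht]
  have h5 := mul_le_mul_of_nonneg_left (integral_norm_gauss_le ht) hκ0
  have h6 : P t (P c v) (-a) = ∫ x, gauss t x * P c v (-a + x) := rfl
  have h7 : P t (P c q) (-a) = ∫ x, gauss t x * P c q (-a + x) := rfl
  rw [h6, h7]
  have h8 : V ρ f L c = P c v 0 := rfl
  have h9 : E ρ f c (‖ρ - 1‖ * (s / Real.sqrt 2)) L = P c q 0 := rfl
  rw [h8, h9, hC0]
  linarith

/-- (F2): almost monotonicity of `V_L` -/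
theorem V_mono_approx (hf : GF f) {ρ : ℂ} (hρ : ρ ≠ 1) {s L t : ℝ} (hs : 0 < s)
    (hL : ‖ρ - 1‖ * (s / Real.sqrt 2) ≤ L) (ht : 0 < t) :
    V ρ f L (Real.sqrt (t ^ 2 + (Real.sqrt 2 * s) ^ 2)) ≤ V ρ f L (Real.sqrt 2 * s) +
      E ρ f (Real.sqrt 2 * s) (‖ρ - 1‖ * (s / Real.sqrt 2)) L +
      E ρ f (Real.sqrt (t ^ 2 + (Real.sqrt 2 * s) ^ 2)) (‖ρ - 1‖ * (s / Real.sqrt 2)) L +
      (∫ y, f y) * (40 * ‖ρ - 1‖ * (t + s) / L) := by
  have hρ' : ρ - 1 ≠ 0 := sub_ne_zero.2 hρ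
  have hn : 0 < ‖ρ - 1‖ := norm_pos_iff.2 hρ'
  have hl : 0 < ‖ρ - 1‖ * (s / Real.sqrt 2) := by positivity
  have hL0 : 0 < L := hl.trans_le hL
  have hM0 : 0 ≤ ∫ y, f y := integral_nonneg hf.nonneg
  obtain ⟨h1, h2⟩ := avg_R hf hρ hs hL ht 0
  have h3 : 0 ≤ ∫ x, gauss t x * Rr ρ f s L 0 x := integral_nonneg fun x =>
    mul_nonneg (gauss_nonneg _ _) ((integral_nonneg fun z => sq_nonneg _).trans
      (dist_le hf hρ hs hL 0 x))
  rw [neg_zero, norm_zero] at h2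
  have h4 : V ρ f L (Real.sqrt (t ^ 2 + (Real.sqrt 2 * s) ^ 2)) =
    P (Real.sqrt (t ^ 2 + (Real.sqrt 2 * s) ^ 2)) (vF ρ f L) 0 := rfl
  have h5 : E ρ f (Real.sqrt (t ^ 2 + (Real.sqrt 2 * s) ^ 2)) (‖ρ - 1‖ * (s / Real.sqrt 2)) L =
    P (Real.sqrt (t ^ 2 + (Real.sqrt 2 * s) ^ 2)) (qF ρ f (‖ρ - 1‖ * (s / Real.sqrt 2)) L) 0 := rfl
  rw [h4, h5]
  have h6 : (∫ y, f y) * (20 * ‖ρ - 1‖ / L) * (3 * 0 + t + 4 * s) ≤
      2 * ((∫ y, f y) * (40 * ‖ρ - 1‖ * (t + s) / L)) := by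
    have h7 : 0 ≤ (∫ y, f y) * (20 * ‖ρ - 1‖ / L) := by positivity
    have h8 : 2 * ((∫ y, f y) * (40 * ‖ρ - 1‖ * (t + s) / L)) =
        (∫ y, f y) * (20 * ‖ρ - 1‖ / L) * (4 * (t + s)) := by ring
    rw [h8]
    exact mul_le_mul_of_nonneg_left (by linarith) h7
  linarith

/-- (F3): one scale -/
theorem one_scale (hf : GF f) {ρ : ℂ} (hρ : ρ ≠ 1) {s L t : ℝ} (hs : 0 < s)
    (hL : ‖ρ - 1‖ * (s / Real.sqrt 2) ≤ L) (ht : 0 < t) {a : ℂ} (ha : ‖a‖ ≤ t) :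
    ∫ z, (T ρ f s a z - T ρ f s 0 z) ^ 2 ≤
      8 * (V ρ f L (Real.sqrt 2 * s) - V ρ f L (Real.sqrt (t ^ 2 + (Real.sqrt 2 * s) ^ 2))) +
      8 * E ρ f (Real.sqrt 2 * s) (‖ρ - 1‖ * (s / Real.sqrt 2)) L +
      16 * Real.exp π * E ρ f (Real.sqrt 2 * Real.sqrt (t ^ 2 + (Real.sqrt 2 * s) ^ 2))
        (‖ρ - 1‖ * (s / Real.sqrt 2)) L +
      (∫ y, f y) * (80 * ‖a‖ / t + 320 * ‖ρ - 1‖ * (t + s) / L) := by
  have hρ' : ρ - 1 ≠ 0 := sub_ne_zero.2 hρ
  have hn : 0 < ‖ρ - 1‖ := norm_pos_iff.2 hρ'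
  have hl : 0 < ‖ρ - 1‖ * (s / Real.sqrt 2) := by positivity
  have hc : 0 < Real.sqrt 2 * s := by positivity
  have hL0 : 0 < L := hl.trans_le hL
  have hM0 : 0 ≤ ∫ y, f y := integral_nonneg hf.nonneg
  have hc'0 : 0 < Real.sqrt (t ^ 2 + (Real.sqrt 2 * s) ^ 2) := Real.sqrt_pos.2 (by positivity)
  have htc : t ≤ Real.sqrt (t ^ 2 + (Real.sqrt 2 * s) ^ 2) :=
    Real.le_sqrt_of_sq_le (by nlinarith [sq_nonneg (Real.sqrt 2 * s)])
  obtain ⟨h1, h2⟩ := avg_R hf hρ hs hL ht a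
  obtain ⟨h3, h4⟩ := avg_R hf hρ hs hL ht 0
  set c' := Real.sqrt (t ^ 2 + (Real.sqrt 2 * s) ^ 2) with hc'
  set c := Real.sqrt 2 * s with hcd
  set l := ‖ρ - 1‖ * (s / Real.sqrt 2) with hld
  set D := ∫ z, (T ρ f s a z - T ρ f s 0 z) ^ 2 with hD
  set κ := (∫ y, f y) * (20 * ‖ρ - 1‖ / L) with hκ
  have hκ0 : 0 ≤ κ := by positivity
  have bv := bm_vF hf ρ hL0
  have bq := bm_qF hf ρ hl hL0
  have hpt : ∀ x, D ≤ 2 * Rr ρ f s L a x + 2 * Rr ρ f s L 0 x := by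
    intro x
    have hTa := bi_T hf ρ hs a
    have hTx := bi_T hf ρ hs x
    have hT0 := bi_T hf ρ hs 0
    have hsq : ∀ {u w : ℂ → ℝ}, BI u → BI w → Integrable (fun z => (u z - w z) ^ 2) := by
      intro u w hu hw
      have h := hu.sub hw
      have := (h.mul_bm h.bm).int
      simpa only [sq] using this
    have i1 := hsq hTa hTx
    have i2 := hsq hT0 hTx
    have i3 := hsq hTa hT0
    have h5 : D ≤ ∫ z, (2 * (T ρ f s a z - T ρ f s x z) ^ 2 +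
        2 * (T ρ f s 0 z - T ρ f s x z) ^ 2) :=
      integral_mono i3 ((i1.const_mul 2).add (i2.const_mul 2)) fun z => by
        have := sq_nonneg ((T ρ f s a z - T ρ f s x z) + (T ρ f s 0 z - T ρ f s x z))
        simp only
        nlinarith
    rw [integral_add (i1.const_mul 2) (i2.const_mul 2), integral_const_mul,
      integral_const_mul] at h5
    have h6 := dist_le hf hρ hs hL a x
    have h7 := dist_le hf hρ hs hL 0 x
    linarith
  have havg : D ≤ 2 * (∫ x, gauss t x * Rr ρ f s L a x) + 2 * ∫ x, gauss t x * Rr ρ f s L 0 x := by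
    rw [← integral_const_mul, ← integral_const_mul, ← integral_add (h1.const_mul 2)
      (h3.const_mul 2)]
    have h5 : D = ∫ x, gauss t x * D := by
      rw [integral_mul_const, integral_gauss ht, one_mul]
    rw [h5]
    refine integral_mono ((integrable_gauss ht).mul_const D)
      ((h1.const_mul 2).add (h3.const_mul 2)) fun x => ?_
    have h6 := mul_le_mul_of_nonneg_left (hpt x) (gauss_nonneg t x)
    simp only
    linarith
  rw [neg_zero, norm_zero] at h4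
  -- lower bound for `v`
  have hv1 : P c' (vF ρ f L) 0 - (∫ y, f y) * (20 * ‖a‖ / t) ≤ P c' (vF ρ f L) (-a) := by
    have h5 := abs_P_add_sub_le hc'0 bv (C := ∫ y, f y) (fun z => by
      rw [abs_of_nonneg (vF_nonneg hf ρ L z)]
      exact vF_le hf ρ hL0 z) 0 (-a)
    rw [zero_add, norm_neg] at h5
    have h6 : 20 * ‖a‖ / c' ≤ 20 * ‖a‖ / t :=
      div_le_div_of_nonneg_left (by positivity) ht htc
    have h7 := mul_le_mul_of_nonneg_left h6 hM0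
    have h8 := (abs_le.1 h5).1
    linarith
  have hq1 : P c' (qF ρ f l L) (-a) ≤ 2 * Real.exp π * E ρ f (Real.sqrt 2 * c') l L :=
    P_neg_le hc'0 bq (fun z => qF_nonneg hf ρ hl hL z) (ha.trans htc)
  have hq2 : P c' (qF ρ f l L) 0 ≤ 2 * Real.exp π * E ρ f (Real.sqrt 2 * c') l L := by
    have h5 := P_neg_le hc'0 bq (fun z => qF_nonneg hf ρ hl hL z) (a := 0)
      (by rw [norm_zero]; exact hc'0.le)
    rwa [neg_zero] at h5
  have h9 : κ * (3 * ‖a‖ + t + 4 * s) + κ * (3 * 0 + t + 4 * s) ≤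
      (1 / 2) * ((∫ y, f y) * (320 * ‖ρ - 1‖ * (t + s) / L)) := by
    have h10 : (1 / 2) * ((∫ y, f y) * (320 * ‖ρ - 1‖ * (t + s) / L)) = κ * (8 * (t + s)) := by
      rw [hκ]
      ring
    rw [h10, ← mul_add]
    exact mul_le_mul_of_nonneg_left (by linarith) hκ0
  have h11 : (∫ y, f y) * (80 * ‖a‖ / t + 320 * ‖ρ - 1‖ * (t + s) / L) =
      4 * ((∫ y, f y) * (20 * ‖a‖ / t)) +
        (∫ y, f y) * (320 * ‖ρ - 1‖ * (t + s) / L) := by ring
  rw [h11]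
  have h12 : V ρ f L c' = P c' (vF ρ f L) 0 := rfl
  rw [h12]
  linarith

end Pool.Agent.H34.TriCL
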